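import Pool.Agent.Y159.QS.Short

set_option autoImplicit false

/-! The two forms of the theorem. -/

namespace Pool.Agent.Y159.QS

open NumberField Finset Pool.Agent.TH869.EVF
open scoped Classical

theorem geom_le {a : ℝ} (ha : 2 ≤ a) : ∀ J : ℕ, ∑ j ∈ Finset.range (J + 1), a ^ j ≤ 2 * a ^ J := by
  intro J
  induction J with
  | zero => simp
  | succ J ih =>
    rw [Finset.sum_range_succ, pow_succ]
    have : 0 ≤ a ^ J := by positivity
    nlinarith

/-- short intervals -/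
theorem short' (l r : ℕ) (hl : 1 ≤ l) (hr : 1 ≤ r) (ε : ℝ) (hε : 0 < ε) : ∃ C : ℝ, 0 < C ∧
    ∀ X H : ℝ, 1 ≤ H → H ≤ X → (H * √X) ^ (3 * r / (l + r) : ℝ) ≤ H →
    ∀ (S : Finset ℤ) (K : ℤ → Type) [∀ D, Field (K D)] [∀ D, NumberField (K D)],
    (∀ D ∈ S, (X ≤ |(D : ℝ)| ∧ |(D : ℝ)| ≤ X + H) ∧ Module.finrank ℚ (K D) = 2 ∧
      NumberField.discr (K D) = D) →
    ∑ D ∈ S, (Nat.card {c : ClassGroup (𝓞 (K D)) // c ^ l = 1} : ℝ) ^ r ≤
      C * X ^ ε * H * (√X / (H * √X) ^ (1 / (l + r) : ℝ)) ^ r := by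
  obtain ⟨C, hC0, hC⟩ := short l r hl hr ε hε
  refine ⟨C, hC0, ?_⟩
  intro X H hH hHX hcond S K _ _ hS
  have hX : 1 ≤ X := hH.trans hHX
  have hQ : 0 < H * √X := mul_pos (by linarith) (Real.sqrt_pos.mpr (by linarith))
  have hlr : (0 : ℝ) < l + r := by
    have : (1 : ℝ) ≤ l := by exact_mod_cast hl
    positivity
  set y : ℝ := (H * √X) ^ (1 / (l + r) : ℝ) with hy
  have hy0 : 0 < y := Real.rpow_pos_of_pos hQ _
  have h1 : y ^ (l + r) = H * √X := by
    rw [hy, ← Real.rpow_natCast, ← Real.rpow_mul hQ.le]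
    push_cast
    rw [one_div, inv_mul_cancel₀ hlr.ne', Real.rpow_one]
  have h2 : y ^ (3 * r) ≤ H := by
    refine le_trans (le_of_eq ?_) hcond
    rw [hy, ← Real.rpow_natCast, ← Real.rpow_mul hQ.le]
    congr 1
    push_cast
    field_simp
  refine (hC X H y hH hHX hy0 h1 h2 S K hS).trans (le_of_eq ?_)
  rw [div_pow]
  ring

/-- all discriminants -/
theorem full (l r : ℕ) (hr : 1 ≤ r) (hrl : 7 * r ≤ 2 * l) (ε : ℝ) (hε : 0 < ε) :
    ∃ C : ℝ, 0 < C ∧ ∀ X : ℝ, 1 ≤ X →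
    ∀ (S : Finset ℤ) (K : ℤ → Type) [∀ D, Field (K D)] [∀ D, NumberField (K D)],
    (∀ D ∈ S, |(D : ℝ)| ≤ X ∧ Module.finrank ℚ (K D) = 2 ∧ NumberField.discr (K D) = D) →
    ∑ D ∈ S, (Nat.card {c : ClassGroup (𝓞 (K D)) // c ^ l = 1} : ℝ) ^ r ≤
      C * X ^ (1 + r / 2 - 3 * r / (2 * (l + r)) + ε : ℝ) := by
  have hl : 1 ≤ l := by omega
  obtain ⟨C, hC0, hC⟩ := short l r hl hr ε hε
  refine ⟨2 * C, by positivity, ?_⟩
  intro X hX S K _ _ hS
  have hlr' : (1 : ℝ) ≤ l := by exact_mod_cast hl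
  have hrr : (1 : ℝ) ≤ r := by exact_mod_cast hr
  have hrlr : (7 : ℝ) * r ≤ 2 * l := by exact_mod_cast hrl
  have hlr : (0 : ℝ) < l + r := by positivity
  set θ : ℝ := 1 + r / 2 - 3 * r / (2 * (l + r)) + ε with hθ
  have hθ1 : 1 ≤ θ := by
    have h1 : 3 * r / (2 * (l + r)) ≤ (r : ℝ) / 2 := by
      rw [div_le_div_iff₀ (by positivity) (by norm_num)]
      nlinarith
    rw [hθ]; linarith
  have hX0 : 0 < X := by linarith
  set T : ℤ → ℝ := fun D => (Nat.card {c : ClassGroup (𝓞 (K D)) // c ^ l = 1} : ℝ) with hT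
  set J : ℕ := Nat.log 2 ⌊X⌋₊ with hJ
  have hX1 : 1 ≤ ⌊X⌋₊ := Nat.le_floor (by exact_mod_cast hX)
  have hmaps : ∀ D ∈ S, Nat.log 2 D.natAbs ∈ Finset.range (J + 1) := by
    intro D hD
    rw [mem_range, Nat.lt_succ_iff, hJ]
    apply Nat.log_mono_right
    apply Nat.le_floor
    rw [Nat.cast_natAbs, Int.cast_abs]
    exact (hS D hD).1
  have hblock : ∀ j ∈ Finset.range (J + 1),
      ∑ D ∈ S.filter (fun D => Nat.log 2 D.natAbs = j), T D ^ r ≤ C * ((2 : ℝ) ^ θ) ^ j := by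
    intro j _
    set x : ℝ := (2 : ℝ) ^ j with hx
    have hx1 : 1 ≤ x := one_le_pow₀ (by norm_num)
    have hx0 : 0 < x := by positivity
    set y : ℝ := x ^ (3 / (2 * (l + r)) : ℝ) with hy
    have hy0 : 0 < y := Real.rpow_pos_of_pos hx0 _
    have h1 : y ^ (l + r) = x * √x := by
      rw [hy, ← Real.rpow_natCast, ← Real.rpow_mul hx0.le, Real.sqrt_eq_rpow]
      nth_rewrite 2 [← Real.rpow_one x]
      rw [← Real.rpow_add hx0]
      congr 1
      push_cast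
      field_simp
      norm_num
    have h2 : y ^ (3 * r) ≤ x := by
      rw [hy, ← Real.rpow_natCast, ← Real.rpow_mul hx0.le]
      nth_rewrite 2 [← Real.rpow_one x]
      apply Real.rpow_le_rpow_of_exponent_le hx1
      push_cast
      rw [div_mul_eq_mul_div, div_le_one (by positivity)]
      nlinarith
    have h3 := hC x x y hx1 le_rfl hy0 h1 h2 (S.filter (fun D => Nat.log 2 D.natAbs = j)) K (by
      intro D hD
      rw [mem_filter] at hD
      obtain ⟨hDS, hDj⟩ := hD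
      obtain ⟨-, h4, h5⟩ := hS D hDS
      have hDne : D.natAbs ≠ 0 := by
        rw [← h5]
        exact Int.natAbs_ne_zero.mpr (NumberField.discr_ne_zero _)
      have h6 : |(D : ℝ)| = (D.natAbs : ℝ) := by rw [Nat.cast_natAbs, Int.cast_abs]
      refine ⟨⟨?_, ?_⟩, h4, h5⟩
      · rw [h6, hx, ← hDj]
        exact_mod_cast Nat.pow_log_le_self 2 hDne
      · have h7 := Nat.lt_pow_succ_log_self (b := 2) (by norm_num) D.natAbs
        rw [hDj] at h7
        rw [h6, hx]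
        have h8 : (D.natAbs : ℝ) ≤ (2 : ℝ) ^ (j + 1) := by exact_mod_cast h7.le
        rw [pow_succ] at h8
        linarith)
    refine h3.trans (le_of_eq ?_)
    have h9 : x ^ ε * (√x ^ r * (x / y ^ r)) = x ^ θ := by
      have e1 : √x ^ r = x ^ ((r : ℝ) / 2) := by
        rw [Real.sqrt_eq_rpow, ← Real.rpow_natCast, ← Real.rpow_mul hx0.le]
        congr 1; ring
      have e2 : x / y ^ r = x ^ (1 - 3 * r / (2 * (l + r)) : ℝ) := by
        rw [Real.rpow_sub hx0, Real.rpow_one, hy, ← Real.rpow_natCast, ← Real.rpow_mul hx0.le]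
        congr 2
        ring
      rw [e1, e2, ← Real.rpow_add hx0, ← Real.rpow_add hx0]
      congr 1
      rw [hθ]; ring
    rw [mul_assoc, h9, hx, ← Real.rpow_natCast 2 j, ← Real.rpow_mul (by norm_num), mul_comm (j : ℝ),
      Real.rpow_mul (by norm_num), Real.rpow_natCast]
  have h2θ : (2 : ℝ) ≤ 2 ^ θ := by
    calc (2 : ℝ) = 2 ^ (1 : ℝ) := (Real.rpow_one 2).symm
      _ ≤ 2 ^ θ := Real.rpow_le_rpow_of_exponent_le (by norm_num) hθ1
  calc ∑ D ∈ S, T D ^ r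
      = ∑ j ∈ Finset.range (J + 1), ∑ D ∈ S.filter (fun D => Nat.log 2 D.natAbs = j), T D ^ r :=
        (Finset.sum_fiberwise_of_maps_to hmaps _).symm
    _ ≤ ∑ j ∈ Finset.range (J + 1), C * ((2 : ℝ) ^ θ) ^ j := Finset.sum_le_sum hblock
    _ = C * ∑ j ∈ Finset.range (J + 1), ((2 : ℝ) ^ θ) ^ j := by rw [Finset.mul_sum]
    _ ≤ C * (2 * ((2 : ℝ) ^ θ) ^ J) := by
        have := geom_le h2θ J
        gcongr
    _ ≤ C * (2 * X ^ θ) := by
        have h1 : ((2 : ℝ) ^ θ) ^ J ≤ X ^ θ := by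
          rw [← Real.rpow_natCast, ← Real.rpow_mul (by norm_num), mul_comm θ,
            Real.rpow_mul (by norm_num), Real.rpow_natCast]
          apply Real.rpow_le_rpow (by positivity) _ (by linarith)
          have h2 : 2 ^ J ≤ ⌊X⌋₊ := Nat.pow_log_le_self 2 (by omega)
          have h3 : ((2 ^ J : ℕ) : ℝ) ≤ ⌊X⌋₊ := by exact_mod_cast h2
          push_cast at h3
          exact h3.trans (Nat.floor_le hX0.le)
        gcongr
    _ = 2 * C * X ^ θ := by ring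

end Pool.Agent.Y159.QS
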