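import Pool.Agent.Y159.QS.Coll
import Pool.Agent.H510R2.Div

set_option autoImplicit false

/-! The number of collisions, on average over the discriminants. -/

namespace Pool.Agent.Y159.QS

open NumberField Finset
open scoped Classical

theorem coll_card (ε : ℝ) (hε : 0 < ε) : ∃ C : ℝ, 0 < C ∧ ∀ (l : ℕ) (X H Z : ℝ), 1 ≤ X → 0 ≤ H →
    H ≤ X → 0 ≤ Z → ∀ p q : ℕ, 1 ≤ p → 1 ≤ q → ∀ S : Finset ℤ,
    (∀ D ∈ S, X ≤ |(D : ℝ)| ∧ |(D : ℝ)| ≤ X + H) →
    ((S.filter (fun D => Coll l Z D p q)).card : ℝ) ≤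
      C * ((3 * Z / √X) * (3 * Z / √X) ^ ε) * (√(H * X) / √(((p * q) ^ l : ℕ) : ℝ) + 1) := by
  obtain ⟨C1, hC10, hC1⟩ := Pool.Agent.H510R2.divisor_bound (ε / 2) (by positivity)
  refine ⟨32 * C1, by positivity, ?_⟩
  intro l X H Z hX hH hHX hZ p q hp hq S hS
  set M : ℕ := (p * q) ^ l with hM
  have hM1 : 1 ≤ M := Nat.one_le_pow _ _ (Nat.mul_pos hp hq)
  have hX0 : 0 < X := by linarith
  have hsX : 0 < √X := Real.sqrt_pos.mpr hX0
  set B : ℝ := 3 * Z / √X with hB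
  have hB0 : 0 ≤ B := by positivity
  set W : ℝ := √(H * X) / √(M : ℝ) + 1 with hW
  have hW0 : 0 ≤ W := by positivity
  set Sk : ℤ → ℕ → Finset ℤ := fun σ k => S.filter (fun D => ∃ a : ℤ,
    (k : ℤ) ^ 2 * D = a ^ 2 - 4 * σ * M ∧ Int.gcd a k ∣ 2) with hSk
  have hcov : S.filter (fun D => Coll l Z D p q) ⊆
      (Finset.Icc 1 ⌊B⌋₊).biUnion (fun k => Sk 1 k ∪ Sk (-1) k) := by
    intro D hD
    rw [mem_filter] at hD
    obtain ⟨hDS, k, a, σ, hk, hσ, he, hg, hb⟩ := hD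
    rw [mem_biUnion]
    refine ⟨k, ?_, ?_⟩
    · rw [mem_Icc]
      refine ⟨hk, Nat.le_floor ?_⟩
      rw [hB, le_div_iff₀ hsX]
      have h1 : (k : ℝ) ^ 2 * X ≤ 8 * Z ^ 2 := by
        refine le_trans ?_ hb
        have := (hS D hDS).1
        gcongr
      have h2 : ((k : ℝ) * √X) ^ 2 ≤ (3 * Z) ^ 2 := by
        rw [mul_pow, Real.sq_sqrt hX0.le]
        nlinarith
      exact (pow_le_pow_iff_left₀ (by positivity) (by positivity) two_ne_zero).mp h2
    · rw [mem_union]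
      rcases hσ with rfl | rfl
      · left; rw [hSk]; simp only [mem_filter]; exact ⟨hDS, a, he, hg⟩
      · right; rw [hSk]; simp only [mem_filter]; exact ⟨hDS, a, he, hg⟩
  have hone : ∀ σ : ℤ, (σ = 1 ∨ σ = -1) → ∀ k : ℕ, 1 ≤ k →
      ((Sk σ k).card : ℝ) ≤ 16 * (k ^ 2).divisors.card * W := by
    intro σ hσ k hk
    have hex : ∀ D ∈ Sk σ k, ∃ a : ℤ, (k : ℤ) ^ 2 * D = a ^ 2 - 4 * σ * M ∧ Int.gcd a k ∣ 2 := by
      intro D hD
      rw [hSk] at hD
      simp only [mem_filter] at hD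
      exact hD.2
    choose! f hf1 hf2 using hex
    have hinj : Set.InjOn f (Sk σ k) := by
      intro D hD D' hD' heq
      have h1 := hf1 D hD
      have h2 := hf1 D' hD'
      rw [heq] at h1
      rw [← h1] at h2
      have hk0 : (k : ℤ) ^ 2 ≠ 0 := pow_ne_zero _ (by exact_mod_cast (by omega : k ≠ 0))
      exact (mul_left_cancel₀ hk0 h2).symm
    have hc : ((Sk σ k).image f).card = (Sk σ k).card := card_image_of_injOn hinj
    rw [← hc]
    refine trace_count hk hM1 hσ hX0 hH hHX _ ?_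
    intro a ha
    rw [mem_image] at ha
    obtain ⟨D, hD, rfl⟩ := ha
    have h1 := hf1 D hD
    have hDS : D ∈ S := by
      rw [hSk] at hD
      simp only [mem_filter] at hD
      exact hD.1
    obtain ⟨h2, h3⟩ := hS D hDS
    rw [← h1]
    have h4 : |(((k : ℤ) ^ 2 * D : ℤ) : ℝ)| = (k : ℝ) ^ 2 * |(D : ℝ)| := by
      rw [Int.cast_mul, abs_mul, Int.cast_pow, Int.cast_natCast, abs_of_nonneg (by positivity)]
    rw [h4]
    refine ⟨dvd_mul_right _ _, hf2 D hD, ?_, ?_⟩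
    · rw [mul_comm]; gcongr
    · rw [mul_comm]; gcongr
  have hdiv : ∀ k ∈ Finset.Icc 1 ⌊B⌋₊, ((k ^ 2).divisors.card : ℝ) ≤ C1 * B ^ ε := by
    intro k hk
    rw [mem_Icc] at hk
    have h1 := hC1 (k ^ 2) (Nat.one_le_pow _ _ hk.1)
    refine h1.trans ?_
    have hkB : (k : ℝ) ≤ B := (Nat.cast_le.mpr hk.2).trans (Nat.floor_le hB0)
    have h2 : (((k ^ 2 : ℕ) : ℝ)) ^ (ε / 2) = (k : ℝ) ^ ε := by
      push_cast
      rw [← Real.rpow_natCast, ← Real.rpow_mul (by positivity)]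
      congr 1
      push_cast; ring
    rw [h2]
    gcongr
  calc ((S.filter (fun D => Coll l Z D p q)).card : ℝ)
      ≤ ∑ k ∈ Finset.Icc 1 ⌊B⌋₊, ((Sk 1 k ∪ Sk (-1) k).card : ℝ) := by
        exact_mod_cast (card_le_card hcov).trans card_biUnion_le
    _ ≤ ∑ k ∈ Finset.Icc 1 ⌊B⌋₊, (32 * (C1 * B ^ ε) * W) := by
        apply Finset.sum_le_sum
        intro k hk
        have hk1 := (mem_Icc.mp hk).1
        have e1 : ((Sk 1 k ∪ Sk (-1) k).card : ℝ) ≤ (Sk 1 k).card + (Sk (-1) k).card := by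
          exact_mod_cast card_union_le _ _
        have e2 := hone 1 (Or.inl rfl) k hk1
        have e3 := hone (-1) (Or.inr rfl) k hk1
        have e4 := hdiv k hk
        have e5 : 16 * ((k ^ 2).divisors.card : ℝ) * W ≤ 16 * (C1 * B ^ ε) * W := by gcongr
        linarith
    _ = (⌊B⌋₊ : ℝ) * (32 * (C1 * B ^ ε) * W) := by
        rw [sum_const, nsmul_eq_mul, Nat.card_Icc, Nat.add_sub_cancel]
    _ ≤ B * (32 * (C1 * B ^ ε) * W) := by
        have := Nat.floor_le hB0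
        have h0 : 0 ≤ 32 * (C1 * B ^ ε) * W := by positivity
        gcongr
    _ = _ := by ring

end Pool.Agent.Y159.QS
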