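import Pool.Agent.Y159.QS.Single
import Pool.Agent.Y159.QS.Count
import Pool.Agent.TH869.EVF.Dy

set_option autoImplicit false

/-! The sum of the numbers of collisions. -/

namespace Pool.Agent.Y159.QS

open Finset Pool.Agent.TH869.EVF
open scoped Classical

/-- the number of collisions on average -/
theorem sum_EC (l : ℕ) (ε : ℝ) (hε : 0 < ε) : ∃ C : ℝ, 0 < C ∧ ∀ (X H : ℝ), 1 ≤ X → 1 ≤ H →
    H ≤ X → ∀ z : ℕ, 1 ≤ z → ∀ S : Finset ℤ, (∀ D ∈ S, X ≤ |(D : ℝ)| ∧ |(D : ℝ)| ≤ X + H) →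
    ∑ D ∈ S, (EC l ((150 * (z : ℝ)) ^ l) D (Qz z) : ℝ) ≤
      C * (Qz z).card ^ 2 * ((z : ℝ) ^ l) ^ ε * (√H + (z : ℝ) ^ l / √X) := by
  obtain ⟨C1, hC10, hC1⟩ := coll_card ε hε
  set A : ℝ := 3 * 150 ^ l with hA
  have hA1 : 1 ≤ A := by
    have : (1 : ℝ) ≤ 150 ^ l := one_le_pow₀ (by norm_num)
    rw [hA]; linarith
  refine ⟨C1 * A ^ ε * (A * 2 ^ l), by positivity, ?_⟩
  intro X H hX hH hHX z hz S hS
  have hX0 : 0 < X := by linarith
  have hsX : 0 < √X := Real.sqrt_pos.mpr hX0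
  have hsX1 : 1 ≤ √X := by rw [Real.one_le_sqrt]; exact hX
  have hzr : (1 : ℝ) ≤ z := by exact_mod_cast hz
  set zl : ℝ := (z : ℝ) ^ l with hzl
  have hzl1 : 1 ≤ zl := one_le_pow₀ hzr
  have hZ : 3 * (150 * (z : ℝ)) ^ l = A * zl := by rw [hA, hzl, mul_pow]; ring
  -- exchange the summations
  have hswap : ∑ D ∈ S, (EC l ((150 * (z : ℝ)) ^ l) D (Qz z) : ℝ) ≤
      ∑ x ∈ Qz z ×ˢ Qz z, ((S.filter (fun D => Coll l ((150 * (z : ℝ)) ^ l) D x.1 x.2)).card : ℝ) := by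
    have e1 : ∀ D ∈ S, (EC l ((150 * (z : ℝ)) ^ l) D (Qz z) : ℝ) ≤
        ∑ x ∈ Qz z ×ˢ Qz z, if Coll l ((150 * (z : ℝ)) ^ l) D x.1 x.2 then (1 : ℝ) else 0 := by
      intro D _
      have e2 : EC l ((150 * (z : ℝ)) ^ l) D (Qz z) ≤
          ((Qz z ×ˢ Qz z).filter (fun x => Coll l ((150 * (z : ℝ)) ^ l) D x.1 x.2)).card := by
        unfold EC
        apply card_le_card
        intro x hx
        rw [mem_filter] at hx ⊢
        exact ⟨hx.1, hx.2.2⟩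
      rw [← Finset.sum_filter, sum_const, nsmul_eq_mul, mul_one]
      exact_mod_cast e2
    refine (Finset.sum_le_sum e1).trans (le_of_eq ?_)
    rw [Finset.sum_comm]
    refine Finset.sum_congr rfl fun x _ => ?_
    rw [← Finset.sum_filter, sum_const, nsmul_eq_mul, mul_one]
  refine hswap.trans ?_
  have hone : ∀ x ∈ Qz z ×ˢ Qz z,
      ((S.filter (fun D => Coll l ((150 * (z : ℝ)) ^ l) D x.1 x.2)).card : ℝ) ≤
      C1 * A ^ ε * (A * 2 ^ l) * zl ^ ε * (√H + zl / √X) := by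
    intro x hx
    rw [mem_product] at hx
    obtain ⟨hp1, hp2, hp3⟩ := mem_Qz hx.1
    obtain ⟨hq1, hq2, hq3⟩ := mem_Qz hx.2
    have h1 := hC1 l X H ((150 * (z : ℝ)) ^ l) hX (by linarith) hHX (by positivity) x.1 x.2
      hp1.one_le hq1.one_le S hS
    rw [hZ] at h1
    have hM : zl / 2 ^ l ≤ √((((x.1 * x.2) ^ l : ℕ)) : ℝ) := by
      apply Real.le_sqrt_of_sq_le
      push_cast
      rw [hzl, ← div_pow, ← pow_mul, mul_comm l 2, pow_mul]
      apply pow_le_pow_left₀ (by positivity)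
      rw [sq]
      exact mul_le_mul hp2 hq2 (by positivity) (by positivity)
    have hM0 : 0 < zl / 2 ^ l := by positivity
    have h2 : √(H * X) / √((((x.1 * x.2) ^ l : ℕ)) : ℝ) ≤ √H * √X * 2 ^ l / zl := by
      rw [Real.sqrt_mul (by linarith)]
      calc √H * √X / √((((x.1 * x.2) ^ l : ℕ)) : ℝ) ≤ √H * √X / (zl / 2 ^ l) := by gcongr
        _ = _ := by field_simp
    have h3 : (A * zl / √X) ^ ε ≤ A ^ ε * zl ^ ε := by
      rw [← Real.mul_rpow (by positivity) (by positivity)]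
      apply Real.rpow_le_rpow (by positivity) _ hε.le
      exact div_le_self (by positivity) hsX1
    have h4 : (1 : ℝ) ≤ 2 ^ l := one_le_pow₀ (by norm_num)
    calc ((S.filter (fun D => Coll l ((150 * (z : ℝ)) ^ l) D x.1 x.2)).card : ℝ)
        ≤ C1 * ((A * zl / √X) * (A * zl / √X) ^ ε) *
          (√(H * X) / √((((x.1 * x.2) ^ l : ℕ)) : ℝ) + 1) := h1
      _ ≤ C1 * ((A * zl / √X) * (A ^ ε * zl ^ ε)) * (√H * √X * 2 ^ l / zl + 2 ^ l) := by
          gcongr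
      _ = C1 * A ^ ε * (A * 2 ^ l) * zl ^ ε * (√H + zl / √X) := by
          have : zl ≠ 0 := by positivity
          field_simp
  calc ∑ x ∈ Qz z ×ˢ Qz z, ((S.filter (fun D => Coll l ((150 * (z : ℝ)) ^ l) D x.1 x.2)).card : ℝ)
      ≤ ∑ x ∈ Qz z ×ˢ Qz z, C1 * A ^ ε * (A * 2 ^ l) * zl ^ ε * (√H + zl / √X) :=
        Finset.sum_le_sum hone
    _ = ((Qz z).card : ℝ) ^ 2 * (C1 * A ^ ε * (A * 2 ^ l) * zl ^ ε * (√H + zl / √X)) := by
        rw [sum_const, nsmul_eq_mul, card_product]; push_cast; ring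
    _ = _ := by ring

end Pool.Agent.Y159.QS
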