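import Pool.Agent.Y159.QS.Quad

set_option autoImplicit false

/-! Two small primes that are not separated in a quadratic field. -/

namespace Pool.Agent.Y159.QS

open NumberField Finset Pool.Agent.TH847.LG Pool.Agent.Y159.PT
open scoped nonZeroDivisors

/-- the arithmetic condition for a collision -/
def Coll (l : ℕ) (Z : ℝ) (D : ℤ) (p q : ℕ) : Prop :=
  ∃ (k : ℕ) (a σ : ℤ), 1 ≤ k ∧ (σ = 1 ∨ σ = -1) ∧
    (k : ℤ) ^ 2 * D = a ^ 2 - 4 * σ * ((p * q) ^ l : ℕ) ∧ Int.gcd a k ∣ 2 ∧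
    (k : ℝ) ^ 2 * |(D : ℝ)| ≤ 8 * Z ^ 2

theorem Coll.symm {l : ℕ} {Z : ℝ} {D : ℤ} {p q : ℕ} (h : Coll l Z D p q) : Coll l Z D q p := by
  unfold Coll at h ⊢
  rwa [mul_comm q p]

variable {K : Type} [Field K] [NumberField K]

theorem absNorm_cof (hK : Module.finrank ℚ K = 2) {P J : Ideal (𝓞 K)} {p : ℕ} (hp : p.Prime)
    (hP : Ideal.absNorm P = p) (hPJ : P * J = Ideal.span {((p : ℕ) : 𝓞 K)}) :
    Ideal.absNorm J = p := by
  have h : Ideal.absNorm P * Ideal.absNorm J = p ^ 2 := by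
    rw [← map_mul, hPJ, Ideal.absNorm_span_natCast, RingOfIntegers.rank, hK]
  rw [hP, sq] at h
  exact Nat.eq_of_mul_eq_mul_left hp.pos h

theorem trace_ndvd {l : ℕ} (hl : 1 ≤ l) {P J Q : Ideal (𝓞 K)}
    {p q : ℕ} (hp : p.Prime) (hq : q.Prime) (hpq : p ≠ q) (hP : Ideal.absNorm P = p)
    (hPJ : P * J = Ideal.span {((p : ℕ) : 𝓞 K)}) (hpD : ¬ p ∣ (discr K).natAbs)
    (hQ : Ideal.absNorm Q = q) {z : 𝓞 K} (hz : Ideal.span {z} = Q ^ l * J ^ l) :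
    ¬ (p : ℤ) ∣ Algebra.trace ℤ (𝓞 K) z := by
  have hPJ' : ¬ P ∣ J := fun h => hpD (dvd_discr_of_dvd hp hP hPJ h)
  refine trace_unit hp hP hPJ hPJ' hpD (Ideal.pow_le_self (by omega) (mem_pow_of_span hz)) ?_
  exact not_mem_of_span hp hq hpq hP hPJ' hQ hz

/-- **Collisions.** -/
theorem coll_of_span (hK : Module.finrank ℚ K = 2) {l : ℕ} (hl : 1 ≤ l) {P J Q R : Ideal (𝓞 K)}
    {p q : ℕ} (hp : p.Prime) (hq : q.Prime) (hpq : p ≠ q) (hP : Ideal.absNorm P = p)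
    (hPJ : P * J = Ideal.span {((p : ℕ) : 𝓞 K)}) (hQ : Ideal.absNorm Q = q)
    (hQR : Q * R = Ideal.span {((q : ℕ) : 𝓞 K)}) (hpD : ¬ p ∣ (discr K).natAbs)
    (hqD : ¬ q ∣ (discr K).natAbs) {z : 𝓞 K} (hz : Ideal.span {z} = Q ^ l * J ^ l) {Z : ℝ}
    (hpqZ : (((p * q) ^ l : ℕ) : ℝ) ≤ Z ^ 2) (hw : ∀ w : InfinitePlace K, w (z : K) ≤ Z) :
    Coll l Z (discr K) p q := by
  have hJ := absNorm_cof hK hp hP hPJ
  have hR := absNorm_cof hK hq hQ hQR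
  have hpa := trace_ndvd hl hp hq hpq hP hPJ hpD hQ hz
  have hqa := trace_ndvd hl hq hp hpq.symm hR (by rw [mul_comm]; exact hQR) hqD hJ
    (by rw [hz, mul_comm])
  obtain ⟨k, hk⟩ := disc_rel hK z
  set a := Algebra.trace ℤ (𝓞 K) z with ha
  set N := Algebra.norm ℤ z with hN
  have hNabs : N.natAbs = (p * q) ^ l := by
    have h := Ideal.absNorm_span_singleton z
    rw [hz, map_mul, map_pow, map_pow, hJ, hQ] at h
    rw [hN, ← h, mul_pow, mul_comm]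
  obtain ⟨σ, hσ, hσN⟩ : ∃ σ : ℤ, (σ = 1 ∨ σ = -1) ∧ N = σ * ((p * q) ^ l : ℕ) := by
    rcases Int.natAbs_eq N with h | h
    · exact ⟨1, Or.inl rfl, by rw [h, hNabs, one_mul]⟩
    · exact ⟨-1, Or.inr rfl, by rw [h, hNabs]; ring⟩
  have hmain : (k.natAbs : ℤ) ^ 2 * discr K = a ^ 2 - 4 * σ * ((p * q) ^ l : ℕ) := by
    rw [Int.natCast_natAbs, sq_abs, ← hk, hσN]; ring
  -- coprimality
  have hcop : ∀ g : ℕ, g ∣ a.natAbs → Nat.Coprime g ((p * q) ^ l) := by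
    intro g hg
    apply Nat.Coprime.pow_right
    apply Nat.Coprime.mul_right
    · rw [Nat.coprime_comm, Nat.Prime.coprime_iff_not_dvd hp]
      intro h; exact hpa (Int.natCast_dvd.mpr (h.trans hg))
    · rw [Nat.coprime_comm, Nat.Prime.coprime_iff_not_dvd hq]
      intro h; exact hqa (Int.natCast_dvd.mpr (h.trans hg))
  have hk0 : k ≠ 0 := by
    intro h0
    rw [h0, Int.natAbs_zero] at hmain
    have h1 : a ^ 2 = 4 * σ * ((p * q) ^ l : ℕ) := by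
      push_cast at hmain ⊢
      linarith
    have h2 : (p : ℤ) ∣ a ^ 2 := by
      rw [h1]
      apply Dvd.dvd.mul_left
      have : p ∣ (p * q) ^ l := (Dvd.intro q rfl).trans (dvd_pow_self _ (by omega))
      exact_mod_cast this
    exact hpa ((Nat.prime_iff_prime_int.mp hp).dvd_of_dvd_pow h2)
  have hgcd : Int.gcd a k.natAbs ∣ 2 := by
    set g := Int.gcd a k.natAbs with hg
    have hga : (g : ℤ) ∣ a := Int.gcd_dvd_left _ _
    have hgk : (g : ℤ) ∣ (k.natAbs : ℤ) := Int.gcd_dvd_right _ _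
    have h1 : (g : ℤ) ^ 2 ∣ 4 * σ * ((p * q) ^ l : ℕ) := by
      have e : 4 * σ * ((p * q) ^ l : ℕ) = a ^ 2 - (k.natAbs : ℤ) ^ 2 * discr K := by
        rw [hmain]; ring
      rw [e]
      exact dvd_sub (pow_dvd_pow_of_dvd hga 2) ((pow_dvd_pow_of_dvd hgk 2).mul_right _)
    have h2 : g ^ 2 ∣ 4 * (p * q) ^ l := by
      have h3 := Int.natAbs_dvd_natAbs.mpr h1
      rw [Int.natAbs_mul, Int.natAbs_mul, Int.natAbs_pow, Int.natAbs_natCast,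
        Int.natAbs_natCast] at h3
      rcases hσ with rfl | rfl
      · simpa using h3
      · simpa using h3
    have h3 : g ^ 2 ∣ 2 ^ 2 := by
      have hc : Nat.Coprime (g ^ 2) ((p * q) ^ l) :=
        Nat.Coprime.pow_left 2 (hcop g (by exact Int.natCast_dvd.mp hga))
      exact hc.dvd_of_dvd_mul_right h2
    exact (Nat.pow_dvd_pow_iff two_ne_zero).mp h3
  refine ⟨k.natAbs, a, σ, Nat.one_le_iff_ne_zero.mpr (Int.natAbs_ne_zero.mpr hk0), hσ, hmain,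
    hgcd, ?_⟩
  have h1 : |(a : ℝ)| ≤ 2 * Z := by
    have := trace_le hK z hw
    exact_mod_cast this
  have h2 : (k.natAbs : ℝ) ^ 2 * |((discr K : ℤ) : ℝ)| =
      |(a : ℝ) ^ 2 - 4 * σ * ((p * q) ^ l : ℕ)| := by
    have h3 : (((k.natAbs : ℤ) ^ 2 * discr K : ℤ) : ℝ) =
      ((a ^ 2 - 4 * σ * ((p * q) ^ l : ℕ) : ℤ) : ℝ) := by rw [hmain]
    have h4 : |(((k.natAbs : ℤ) ^ 2 * discr K : ℤ) : ℝ)| =
        (k.natAbs : ℝ) ^ 2 * |((discr K : ℤ) : ℝ)| := by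
      rw [Int.cast_mul, abs_mul, Int.cast_pow, Int.cast_natCast, abs_of_nonneg (by positivity)]
    rw [← h4, h3]
    push_cast
    rfl
  rw [h2]
  have h5 : (a : ℝ) ^ 2 ≤ 4 * Z ^ 2 := by
    have := abs_nonneg (a : ℝ)
    nlinarith [sq_abs (a : ℝ)]
  have h6 : |(σ : ℝ)| = 1 := by rcases hσ with rfl | rfl <;> simp
  calc |(a : ℝ) ^ 2 - 4 * σ * ((p * q) ^ l : ℕ)|
      ≤ |(a : ℝ) ^ 2| + |4 * (σ : ℝ) * ((p * q) ^ l : ℕ)| := abs_sub _ _
    _ = (a : ℝ) ^ 2 + 4 * ((p * q) ^ l : ℕ) := by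
        rw [abs_of_nonneg (sq_nonneg _), abs_mul, abs_mul, h6, Nat.abs_cast]
        norm_num
    _ ≤ 4 * Z ^ 2 + 4 * Z ^ 2 := by gcongr
    _ = _ := by ring

end Pool.Agent.Y159.QS
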