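import Mathlib

set_option autoImplicit false

/-! Independent sets in sparse relations. -/

namespace Pool.Agent.Y159.QS

open Finset
open scoped Classical

/-- a maximal independent set -/
theorem greedy (P : Finset ℕ) (R : ℕ → ℕ → Prop) (hR : ∀ p q, R p q → R q p) (d : ℝ)
    (hdeg : ∀ p ∈ P, ((P.filter (fun q => q ≠ p ∧ R p q)).card : ℝ) ≤ d) :
    ∃ G ⊆ P, (∀ p ∈ G, ∀ q ∈ G, p ≠ q → ¬ R p q) ∧ (P.card : ℝ) ≤ G.card * (1 + d) := by
  set F : Finset (Finset ℕ) := P.powerset.filter
    (fun G => ∀ p ∈ G, ∀ q ∈ G, p ≠ q → ¬ R p q) with hF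
  have hFne : F.Nonempty := ⟨∅, by rw [hF, mem_filter]; simp⟩
  obtain ⟨G, hGF, hmax⟩ := Finset.exists_max_image F (fun G => G.card) hFne
  rw [hF, mem_filter, mem_powerset] at hGF
  refine ⟨G, hGF.1, hGF.2, ?_⟩
  have hcov : P ⊆ G.biUnion (fun g => insert g (P.filter (fun q => q ≠ g ∧ R g q))) := by
    intro p hp
    rw [mem_biUnion]
    by_contra hcon
    push Not at hcon
    have hpG : p ∉ G := fun h => hcon p h (mem_insert_self _ _)
    have hno : ∀ g ∈ G, ¬ R g p := by
      intro g hg hgp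
      apply hcon g hg
      rw [mem_insert, mem_filter]
      right
      refine ⟨hp, ?_, hgp⟩
      rintro rfl
      exact hpG hg
    have hins : insert p G ∈ F := by
      rw [hF, mem_filter, mem_powerset]
      refine ⟨insert_subset hp hGF.1, ?_⟩
      intro a ha b hb hab
      rw [mem_insert] at ha hb
      rcases ha with rfl | ha
      · rcases hb with rfl | hb
        · exact absurd rfl hab
        · intro h; exact hno b hb (hR _ _ h)
      · rcases hb with rfl | hb
        · exact hno a ha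
        · exact hGF.2 a ha b hb hab
    have := hmax _ hins
    rw [card_insert_of_notMem hpG] at this
    omega
  have h1 : (P.card : ℝ) ≤ ∑ g ∈ G,
      ((insert g (P.filter (fun q => q ≠ g ∧ R g q))).card : ℝ) := by
    have := (card_le_card hcov).trans card_biUnion_le
    exact_mod_cast this
  refine h1.trans ?_
  calc ∑ g ∈ G, ((insert g (P.filter (fun q => q ≠ g ∧ R g q))).card : ℝ)
      ≤ ∑ g ∈ G, (1 + d) := by
        apply Finset.sum_le_sum
        intro g hg
        have e1 : ((insert g (P.filter (fun q => q ≠ g ∧ R g q))).card : ℝ) ≤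
            (P.filter (fun q => q ≠ g ∧ R g q)).card + 1 := by
          exact_mod_cast card_insert_le _ _
        have e2 := hdeg g (hGF.1 hg)
        linarith
    _ = G.card * (1 + d) := by rw [sum_const, nsmul_eq_mul]

/-- few related pairs leave a large independent set -/
theorem indep (P : Finset ℕ) (R : ℕ → ℕ → Prop) (hR : ∀ p q, R p q → R q p) :
    ∃ G ⊆ P, (∀ p ∈ G, ∀ q ∈ G, p ≠ q → ¬ R p q) ∧
      (P.card : ℝ) ^ 2 ≤ G.card * (2 * P.card +
        4 * ((P ×ˢ P).filter (fun x => x.2 ≠ x.1 ∧ R x.1 x.2)).card) := by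
  rcases P.eq_empty_or_nonempty with rfl | hne
  · exact ⟨∅, by simp, by simp, by simp⟩
  obtain ⟨E, hE⟩ : ∃ E : ℕ, E = ((P ×ˢ P).filter (fun x => x.2 ≠ x.1 ∧ R x.1 x.2)).card := ⟨_, rfl⟩
  rw [← hE]
  have hN : (0 : ℝ) < P.card := by exact_mod_cast hne.card_pos
  have hdeg : ∑ p ∈ P, (P.filter (fun q => q ≠ p ∧ R p q)).card = E := by
    rw [hE, Finset.card_filter, Finset.sum_product]
    refine Finset.sum_congr rfl fun p _ => ?_
    rw [Finset.card_filter]
  obtain ⟨d, hd⟩ : ∃ d : ℝ, d = 2 * E / P.card := ⟨_, rfl⟩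
  have hd0 : 0 ≤ d := by
    rw [hd]; exact div_nonneg (mul_nonneg (by norm_num) (Nat.cast_nonneg _)) hN.le
  have h5 : (P.card : ℝ) * (1 + d) = P.card + 2 * E := by
    rw [hd, mul_add, mul_one, mul_div_cancel₀ _ hN.ne']
  obtain ⟨P', hP'⟩ : ∃ P' : Finset ℕ,
    P' = P.filter (fun p => ((P.filter (fun q => q ≠ p ∧ R p q)).card : ℝ) ≤ d) := ⟨_, rfl⟩
  have hhalf : (P.card : ℝ) ≤ 2 * P'.card := by
    have h1 : (P.card : ℝ) = P'.card +
        ((P.filter (fun p => ¬ ((P.filter (fun q => q ≠ p ∧ R p q)).card : ℝ) ≤ d)).card : ℝ) := by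
      rw [hP', ← Nat.cast_add, Finset.card_filter_add_card_filter_not]
    obtain ⟨B, hB⟩ : ∃ B : Finset ℕ,
      B = P.filter (fun p => ¬ ((P.filter (fun q => q ≠ p ∧ R p q)).card : ℝ) ≤ d) := ⟨_, rfl⟩
    rw [← hB] at h1
    rcases B.eq_empty_or_nonempty with hBe | hBne
    · rw [hBe] at h1
      simp only [card_empty, Nat.cast_zero, add_zero] at h1
      have : (0 : ℝ) ≤ P'.card := Nat.cast_nonneg _
      linarith
    · have h2 : (B.card : ℝ) * d < E := by
        calc (B.card : ℝ) * d = ∑ p ∈ B, d := by rw [sum_const, nsmul_eq_mul]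
          _ < ∑ p ∈ B, ((P.filter (fun q => q ≠ p ∧ R p q)).card : ℝ) := by
              apply Finset.sum_lt_sum_of_nonempty hBne
              intro p hp
              rw [hB, mem_filter, not_le] at hp
              exact hp.2
          _ ≤ ∑ p ∈ P, ((P.filter (fun q => q ≠ p ∧ R p q)).card : ℝ) := by
              apply Finset.sum_le_sum_of_subset_of_nonneg (by rw [hB]; exact filter_subset _ _)
              intro p _ _; exact Nat.cast_nonneg _
          _ = E := by exact_mod_cast hdeg
      have hE0 : (0 : ℝ) < E := lt_of_le_of_lt (mul_nonneg (Nat.cast_nonneg _) hd0) h2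
      have h3 : (B.card : ℝ) * 2 < P.card := by
        have : (B.card : ℝ) * 2 * E < P.card * E := by
          have e : (B.card : ℝ) * d * P.card = B.card * 2 * E := by
            rw [hd, mul_assoc, div_mul_cancel₀ _ hN.ne']; ring
          have h6 : (B.card : ℝ) * d * P.card < E * P.card := mul_lt_mul_of_pos_right h2 hN
          rw [e] at h6
          linarith
        exact lt_of_mul_lt_mul_right this hE0.le
      linarith
  obtain ⟨G, hGP, hG, hcard⟩ := greedy P' R hR d (by
    intro p hp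
    have h1 : (P'.filter (fun q => q ≠ p ∧ R p q)).card ≤ (P.filter (fun q => q ≠ p ∧ R p q)).card :=
      card_le_card (filter_subset_filter _ (by rw [hP']; exact filter_subset _ _))
    have h2 : ((P'.filter (fun q => q ≠ p ∧ R p q)).card : ℝ) ≤
      ((P.filter (fun q => q ≠ p ∧ R p q)).card : ℝ) := by exact_mod_cast h1
    rw [hP', mem_filter] at hp
    exact h2.trans hp.2)
  refine ⟨G, hGP.trans (by rw [hP']; exact filter_subset _ _), hG, ?_⟩
  have h4 : (P.card : ℝ) ≤ 2 * (G.card * (1 + d)) := by linarith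
  have hG0 : (0 : ℝ) ≤ G.card := Nat.cast_nonneg _
  calc (P.card : ℝ) ^ 2 = P.card * P.card := by ring
    _ ≤ P.card * (2 * (G.card * (1 + d))) := by gcongr
    _ = 2 * G.card * (P.card * (1 + d)) := by ring
    _ = _ := by rw [h5]; ring

end Pool.Agent.Y159.QS
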