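import Pool.Agent.Y159.QS.Sup
import Pool.Agent.Y159.QS.Avg
import Pool.Agent.Y159.PT.Lev2

set_option autoImplicit false

/-! Moments of the torsion of class groups of quadratic fields in short intervals. -/

namespace Pool.Agent.Y159.QS

open NumberField Finset Pool.Agent.TH869.EVF
open scoped Classical

/-- the torsion of one good field -/
theorem good_bound {T N N0 E B : ℝ} (r : ℕ) (hr : 1 ≤ r) (hT : 0 ≤ T) (hB : 0 ≤ B) (hN0 : 0 < N0)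
    (hN : N0 / 16 ≤ N) (hE0 : 0 ≤ E) (hE : E ≤ N0 ^ 2) (h : T * N ^ 2 ≤ B * (2 * N + 4 * E)) :
    T ^ r ≤ (1024 * B) ^ r * 2 ^ (r - 1) * ((1 / N0) ^ r + E / N0 ^ 2) := by
  have hNp : 0 < N := by linarith [div_pos hN0 (by norm_num : (0 : ℝ) < 16)]
  have h1 : T ≤ B * (2 / N + 4 * E / N ^ 2) := by
    have e : B * (2 / N + 4 * E / N ^ 2) = B * (2 * N + 4 * E) / N ^ 2 := by
      field_simp
    rw [e, le_div_iff₀ (by positivity)]
    exact h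
  have h2 : 2 / N ≤ 32 * (1 / N0) := by
    rw [div_le_iff₀ hNp]
    have : 32 * (1 / N0) * (N0 / 16) ≤ 32 * (1 / N0) * N := by gcongr
    have e : 32 * (1 / N0) * (N0 / 16) = 2 := by field_simp; norm_num
    linarith
  have h3 : 4 * E / N ^ 2 ≤ 1024 * (E / N0 ^ 2) := by
    rw [div_le_iff₀ (by positivity)]
    have h4 : (N0 / 16) ^ 2 ≤ N ^ 2 := by gcongr
    have h5 : 1024 * (E / N0 ^ 2) * (N0 / 16) ^ 2 ≤ 1024 * (E / N0 ^ 2) * N ^ 2 := by gcongr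
    have e : 1024 * (E / N0 ^ 2) * (N0 / 16) ^ 2 = 4 * E := by field_simp; ring
    linarith
  have h6 : T ≤ 1024 * B * (1 / N0 + E / N0 ^ 2) := by
    refine h1.trans ?_
    have h7 : 2 / N + 4 * E / N ^ 2 ≤ 1024 * (1 / N0 + E / N0 ^ 2) := by
      have : 0 ≤ 1 / N0 := by positivity
      linarith
    calc B * (2 / N + 4 * E / N ^ 2) ≤ B * (1024 * (1 / N0 + E / N0 ^ 2)) := by gcongr
      _ = _ := by ring
  have he0 : 0 ≤ E / N0 ^ 2 := by positivity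
  have he1 : E / N0 ^ 2 ≤ 1 := by rw [div_le_one (by positivity)]; exact hE
  have h8 : (1 / N0 + E / N0 ^ 2) ^ r ≤ 2 ^ (r - 1) * ((1 / N0) ^ r + (E / N0 ^ 2) ^ r) :=
    add_pow_le (by positivity) he0 r
  have h9 : (E / N0 ^ 2) ^ r ≤ E / N0 ^ 2 := pow_le_of_le_one he0 he1 (by omega)
  calc T ^ r ≤ (1024 * B * (1 / N0 + E / N0 ^ 2)) ^ r := by gcongr
    _ = (1024 * B) ^ r * (1 / N0 + E / N0 ^ 2) ^ r := by rw [mul_pow]
    _ ≤ (1024 * B) ^ r * (2 ^ (r - 1) * ((1 / N0) ^ r + E / N0 ^ 2)) := by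
        have h10 : 2 ^ (r - 1) * ((1 / N0) ^ r + (E / N0 ^ 2) ^ r) ≤
            (2 : ℝ) ^ (r - 1) * ((1 / N0) ^ r + E / N0 ^ 2) := by gcongr
        exact mul_le_mul_of_nonneg_left (h8.trans h10) (by positivity)
    _ = _ := by ring

/-- the number of integers in the window -/
theorem card_window {X H : ℝ} (hH : 1 ≤ H) (S : Finset ℤ)
    (hS : ∀ D ∈ S, X ≤ |(D : ℝ)| ∧ |(D : ℝ)| ≤ X + H) : (S.card : ℝ) ≤ 4 * H := by
  have hsub : S ⊆ Finset.Icc ⌈X⌉ ⌊X + H⌋ ∪ Finset.Icc (-⌊X + H⌋) (-⌈X⌉) := by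
    intro D hD
    obtain ⟨h1, h2⟩ := hS D hD
    rw [mem_union, mem_Icc, mem_Icc]
    rcases le_or_gt 0 D with h | h
    · left
      have h0 : (0 : ℝ) ≤ D := by exact_mod_cast h
      rw [abs_of_nonneg h0] at h1 h2
      exact ⟨Int.ceil_le.mpr h1, Int.le_floor.mpr h2⟩
    · right
      have h0 : (D : ℝ) < 0 := by exact_mod_cast h
      rw [abs_of_neg h0] at h1 h2
      have e1 : ⌈X⌉ ≤ -D := Int.ceil_le.mpr (by push_cast; exact h1)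
      have e2 : -D ≤ ⌊X + H⌋ := Int.le_floor.mpr (by push_cast; exact h2)
      constructor <;> linarith
  have h1 := (card_le_card hsub).trans (card_union_le _ _)
  rw [Int.card_Icc, Int.card_Icc] at h1
  have h2 : ((⌊X + H⌋ + 1 - ⌈X⌉).toNat : ℝ) ≤ H + 1 := by
    have e1 : ((⌊X + H⌋ + 1 - ⌈X⌉).toNat : ℤ) ≤ max (⌊X + H⌋ + 1 - ⌈X⌉) 0 := by omega
    have e2 : (((⌊X + H⌋ + 1 - ⌈X⌉).toNat : ℤ) : ℝ) ≤ ((max (⌊X + H⌋ + 1 - ⌈X⌉) 0 : ℤ) : ℝ) := by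
      exact_mod_cast e1
    have e3 := Int.floor_le (X + H)
    have e4 := Int.le_ceil X
    have e5 : ((max (⌊X + H⌋ + 1 - ⌈X⌉) 0 : ℤ) : ℝ) ≤ H + 1 := by
      push_cast
      apply max_le
      · linarith
      · linarith
    have e6 : (((⌊X + H⌋ + 1 - ⌈X⌉).toNat : ℤ) : ℝ) = ((⌊X + H⌋ + 1 - ⌈X⌉).toNat : ℝ) := by
      norm_cast
    linarith
  have e7 : -⌈X⌉ + 1 - -⌊X + H⌋ = ⌊X + H⌋ + 1 - ⌈X⌉ := by ring
  rw [e7] at h1
  have h3 : (S.card : ℝ) ≤ ((⌊X + H⌋ + 1 - ⌈X⌉).toNat : ℝ) + ((⌊X + H⌋ + 1 - ⌈X⌉).toNat : ℝ) := by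
    exact_mod_cast h1
  linarith

end Pool.Agent.Y159.QS
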