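import Mathlib

set_option autoImplicit false

/-! Square roots modulo `k ^ 2` in short intervals. -/

namespace Pool.Agent.Y159.QS

open Finset

/-- two square roots with the same greatest common divisor are close to be congruent -/
theorem four_mul_dvd {k c a a' a₁ : ℤ} (hk : k ≠ 0) (h : k ^ 2 ∣ a ^ 2 - c)
    (h' : k ^ 2 ∣ a' ^ 2 - c) (h1 : k ^ 2 ∣ a₁ ^ 2 - c) (hg1 : Int.gcd a₁ k ∣ 2)
    (hgg : Int.gcd (a - a₁) (k ^ 2) = Int.gcd (a' - a₁) (k ^ 2)) : k ^ 2 ∣ 4 * (a - a') := by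
  have hk2 : k ^ 2 ≠ 0 := pow_ne_zero _ hk
  set g := Int.gcd (a - a₁) (k ^ 2) with hg
  have hg0 : 0 < g := Int.gcd_pos_of_ne_zero_right _ hk2
  obtain ⟨u, v, huv, hu, hv⟩ := Int.exists_gcd_one (m := a - a₁) (n := k ^ 2) hg0
  have hg0' : 0 < Int.gcd (a' - a₁) (k ^ 2) := by rw [← hgg]; exact hg0
  obtain ⟨u', v', huv', hu', hv'⟩ := Int.exists_gcd_one (m := a' - a₁) (n := k ^ 2) hg0'
  rw [← hg] at hu hv
  rw [← hgg] at hu' hv'
  have hgz : (g : ℤ) ≠ 0 := by exact_mod_cast hg0.ne'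
  have hvv : v = v' := by
    apply mul_right_cancel₀ hgz
    rw [← hv, ← hv']
  -- `v` divides `a + a₁`
  have key : ∀ b w : ℤ, k ^ 2 ∣ b ^ 2 - c → Int.gcd w v = 1 → b - a₁ = w * g → v ∣ b + a₁ := by
    intro b w hb hw hbw
    have e1 : k ^ 2 ∣ (b - a₁) * (b + a₁) := by
      have := dvd_sub hb h1
      have e : b ^ 2 - c - (a₁ ^ 2 - c) = (b - a₁) * (b + a₁) := by ring
      rwa [e] at this
    rw [hbw, hv] at e1
    have e2 : v ∣ w * (b + a₁) := by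
      have : v * g ∣ w * (b + a₁) * g := by
        have e : w * (b + a₁) * g = w * g * (b + a₁) := by ring
        rw [e]; exact e1
      exact (mul_dvd_mul_iff_right hgz).mp this
    exact (Int.isCoprime_iff_gcd_eq_one.mpr (by rw [Int.gcd_comm]; exact hw)).dvd_of_dvd_mul_left e2
  have hva := key a u h huv hu
  have hva' := key a' u' h' (by rw [hvv]; exact huv') hu'
  have hgd : (g : ℤ) ∣ a - a' := by
    have : a - a' = (u - u') * g := by linarith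
    rw [this]; exact dvd_mul_left _ _
  have hvd : v ∣ a - a' := by
    have := dvd_sub hva hva'
    have e : a + a₁ - (a' + a₁) = a - a' := by ring
    rwa [e] at this
  -- the greatest common divisor of `g` and `v`
  have hv0 : v ≠ 0 := by
    rintro rfl
    rw [zero_mul] at hv
    exact hk2 hv
  have hh0 : 0 < Int.gcd (g : ℤ) v := Int.gcd_pos_of_ne_zero_right _ hv0
  set h₀ := Int.gcd (g : ℤ) v with hh
  obtain ⟨g₁, v₁, hgv, hg1', hv1'⟩ := Int.exists_gcd_one (m := (g : ℤ)) (n := v) hh0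
  rw [← hh] at hg1' hv1'
  have hhz : (h₀ : ℤ) ≠ 0 := by exact_mod_cast hh0.ne'
  have hhg : (h₀ : ℤ) ∣ g := Int.gcd_dvd_left _ _
  have hhv : (h₀ : ℤ) ∣ v := Int.gcd_dvd_right _ _
  have h2a : (h₀ : ℤ) ∣ 2 * a₁ := by
    have e1 : (h₀ : ℤ) ∣ a - a₁ := by rw [hu]; exact hhg.mul_left _
    have e2 : (h₀ : ℤ) ∣ a + a₁ := hhv.trans hva
    have := dvd_sub e2 e1
    have e : a + a₁ - (a - a₁) = 2 * a₁ := by ring
    rwa [e] at this
  have hhk : (h₀ : ℤ) ∣ k := by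
    have : (h₀ : ℤ) ^ 2 ∣ k ^ 2 := by
      rw [hv, sq]; exact mul_dvd_mul hhv hhg
    exact (Int.pow_dvd_pow_iff two_ne_zero).mp this
  have h4 : (h₀ : ℤ) ∣ 4 := by
    have e1 : h₀ ∣ Int.gcd (2 * a₁) (2 * k) := by
      have := Int.dvd_coe_gcd h2a (hhk.mul_left 2)
      exact_mod_cast this
    have e2 : Int.gcd (2 * a₁) (2 * k) = 2 * Int.gcd a₁ k := by
      rw [Int.gcd_mul_left]; rfl
    rw [e2] at e1
    have e3 : h₀ ∣ 2 * 2 := e1.trans (Nat.mul_dvd_mul_left 2 hg1)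
    have : ((h₀ : ℕ) : ℤ) ∣ ((2 * 2 : ℕ) : ℤ) := by exact_mod_cast e3
    simpa using this
  obtain ⟨s, hs⟩ := hgd
  have e5 : v₁ ∣ s := by
    have e6 : v₁ * h₀ ∣ (g₁ * s) * h₀ := by
      rw [← hv1']
      have : g₁ * s * h₀ = (g : ℤ) * s := by rw [hg1']; ring
      rw [this, ← hs]; exact hvd
    have e7 : v₁ ∣ g₁ * s := (mul_dvd_mul_iff_right hhz).mp e6
    exact (Int.isCoprime_iff_gcd_eq_one.mpr (by rw [Int.gcd_comm]; exact hgv)).dvd_of_dvd_mul_left e7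
  obtain ⟨s', hs'⟩ := e5
  obtain ⟨w, hw⟩ := h4
  refine ⟨w * s', ?_⟩
  rw [hw, hs, hs', hv, hv1', hg1']
  ring

/-- the number of square roots modulo `k ^ 2` -/
theorem roots_card {k : ℕ} (hk : 1 ≤ k) (c x : ℤ) (A : Finset ℤ)
    (hA : ∀ a ∈ A, (k : ℤ) ^ 2 ∣ a ^ 2 - c ∧ Int.gcd a k ∣ 2 ∧ x ≤ a ∧ a < x + (k : ℤ) ^ 2) :
    A.card ≤ (k ^ 2).divisors.card * 4 := by
  rcases A.eq_empty_or_nonempty with rfl | ⟨a₁, ha₁⟩
  · simp
  have hkz : (k : ℤ) ≠ 0 := by exact_mod_cast (by omega : k ≠ 0)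
  have hk2 : (0 : ℤ) < (k : ℤ) ^ 2 := by positivity
  obtain ⟨h1, h2, h3, h4⟩ := hA a₁ ha₁
  have hcard : ((k ^ 2).divisors ×ˢ Finset.range 4).card = (k ^ 2).divisors.card * 4 := by
    rw [card_product, card_range]
  rw [← hcard]
  refine Finset.card_le_card_of_injOn
    (fun a => (Int.gcd (a - a₁) ((k : ℤ) ^ 2), (4 * (a - x) / (k : ℤ) ^ 2).toNat)) ?_ ?_
  · intro a ha
    obtain ⟨b1, b2, b3, b4⟩ := hA a ha
    simp only [coe_product, Set.mem_prod, mem_coe, Nat.mem_divisors, mem_range]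
    refine ⟨⟨?_, by positivity⟩, ?_⟩
    · have := Int.gcd_dvd_right (a - a₁) ((k : ℤ) ^ 2)
      exact_mod_cast this
    · have e1 : 4 * (a - x) / (k : ℤ) ^ 2 < 4 := by
        rw [Int.ediv_lt_iff_lt_mul hk2]; linarith
      have e2 : 0 ≤ 4 * (a - x) / (k : ℤ) ^ 2 := Int.ediv_nonneg (by linarith) hk2.le
      omega
  · intro a ha a' ha' heq
    obtain ⟨b1, b2, b3, b4⟩ := hA a ha
    obtain ⟨c1, c2, c3, c4⟩ := hA a' ha'
    simp only [Prod.mk.injEq] at heq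
    obtain ⟨e1, e2⟩ := heq
    have e3 : 0 ≤ 4 * (a - x) / (k : ℤ) ^ 2 := Int.ediv_nonneg (by linarith) hk2.le
    have e4 : 0 ≤ 4 * (a' - x) / (k : ℤ) ^ 2 := Int.ediv_nonneg (by linarith) hk2.le
    have e5 : 4 * (a - x) / (k : ℤ) ^ 2 = 4 * (a' - x) / (k : ℤ) ^ 2 := by omega
    have e6 := four_mul_dvd hkz b1 c1 h1 h2 e1
    have e7 := Int.emod_add_mul_ediv (4 * (a - x)) ((k : ℤ) ^ 2)
    have e8 := Int.emod_add_mul_ediv (4 * (a' - x)) ((k : ℤ) ^ 2)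
    have e9 := Int.emod_nonneg (4 * (a - x)) hk2.ne'
    have e10 := Int.emod_nonneg (4 * (a' - x)) hk2.ne'
    have e11 := Int.emod_lt_of_pos (4 * (a - x)) hk2
    have e12 := Int.emod_lt_of_pos (4 * (a' - x)) hk2
    rw [e5] at e7
    have e13 : 4 * (a - a') = 0 := by
      apply Int.eq_zero_of_abs_lt_dvd e6
      rw [abs_lt]
      constructor <;> linarith
    linarith

/-- square roots modulo `k ^ 2` in a real interval -/
theorem window_card {k : ℕ} (hk : 1 ≤ k) (c : ℤ) (x W : ℝ) (hW : 0 ≤ W) (A : Finset ℤ)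
    (hA : ∀ a ∈ A, (k : ℤ) ^ 2 ∣ a ^ 2 - c ∧ Int.gcd a k ∣ 2 ∧ x ≤ a ∧ (a : ℝ) ≤ x + W) :
    (A.card : ℝ) ≤ (W / (k : ℝ) ^ 2 + 1) * (4 * (k ^ 2).divisors.card) := by
  have hk0 : (0 : ℝ) < (k : ℝ) ^ 2 := by
    have : (0 : ℝ) < k := by exact_mod_cast hk
    positivity
  set T : Finset ℕ := Finset.range (⌊W / (k : ℝ) ^ 2⌋₊ + 1) with hT
  have hmaps : ∀ a ∈ A, (⌊((a : ℝ) - x) / (k : ℝ) ^ 2⌋₊) ∈ T := by
    intro a ha
    obtain ⟨-, -, b3, b4⟩ := hA a ha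
    rw [hT, mem_range, Nat.lt_succ_iff]
    apply Nat.floor_le_floor
    gcongr
    linarith
  have hfib : ∀ j ∈ T, (A.filter (fun a : ℤ => ⌊((a : ℝ) - x) / (k : ℝ) ^ 2⌋₊ = j)).card ≤
      (k ^ 2).divisors.card * 4 := by
    intro j _
    refine roots_card hk c ⌈x + j * (k : ℝ) ^ 2⌉ _ ?_
    intro a ha
    rw [mem_filter] at ha
    obtain ⟨b1, b2, b3, b4⟩ := hA a ha.1
    have e1 := Nat.floor_le (a := ((a : ℝ) - x) / (k : ℝ) ^ 2)
      (div_nonneg (by linarith) hk0.le)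
    have e2 := Nat.lt_floor_add_one (((a : ℝ) - x) / (k : ℝ) ^ 2)
    rw [ha.2] at e1 e2
    rw [le_div_iff₀ hk0] at e1
    rw [div_lt_iff₀ hk0] at e2
    refine ⟨b1, b2, ?_, ?_⟩
    · rw [Int.ceil_le]; linarith
    · have e3 := Int.le_ceil (x + j * (k : ℝ) ^ 2)
      have e4 : (a : ℝ) < ((⌈x + j * (k : ℝ) ^ 2⌉ + (k : ℤ) ^ 2 : ℤ) : ℝ) := by
        push_cast
        linarith
      exact_mod_cast e4
  have h1 := Finset.card_le_mul_card_image_of_maps_to hmaps _ hfib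
  rw [hT, card_range] at h1
  have h2 : (A.card : ℝ) ≤ ((k ^ 2).divisors.card * 4) * ((⌊W / (k : ℝ) ^ 2⌋₊ : ℝ) + 1) := by
    exact_mod_cast h1
  have h3 := Nat.floor_le (a := W / (k : ℝ) ^ 2) (by positivity)
  calc (A.card : ℝ) ≤ ((k ^ 2).divisors.card * 4) * ((⌊W / (k : ℝ) ^ 2⌋₊ : ℝ) + 1) := h2
    _ ≤ ((k ^ 2).divisors.card * 4) * (W / (k : ℝ) ^ 2 + 1) := by gcongr
    _ = _ := by ring

/-- square roots modulo `k ^ 2` whose square is in an interval -/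
theorem sq_window_card {k : ℕ} (hk : 1 ≤ k) (c : ℤ) {L U : ℝ} (hLU : L ≤ U) (A : Finset ℤ)
    (hA : ∀ a ∈ A, (k : ℤ) ^ 2 ∣ a ^ 2 - c ∧ Int.gcd a k ∣ 2 ∧ L ≤ (a : ℝ) ^ 2 ∧
      (a : ℝ) ^ 2 ≤ U) :
    (A.card : ℝ) ≤ 2 * (((√U - √L) / (k : ℝ) ^ 2 + 1) * (4 * (k ^ 2).divisors.card)) := by
  classical
  have hs : √L ≤ √U := Real.sqrt_le_sqrt hLU
  have h1 := window_card hk c (√L) (√U - √L) (by linarith) (A.filter (fun a => 0 ≤ a)) (by
    intro a ha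
    rw [mem_filter] at ha
    obtain ⟨b1, b2, b3, b4⟩ := hA a ha.1
    have ha0 : (0 : ℝ) ≤ a := by exact_mod_cast ha.2
    refine ⟨b1, b2, Real.sqrt_le_iff.mpr ⟨ha0, b3⟩, ?_⟩
    have := Real.le_sqrt_of_sq_le b4
    linarith)
  have h2 := window_card hk c (-√U) (√U - √L) (by linarith) (A.filter (fun a => ¬ 0 ≤ a)) (by
    intro a ha
    rw [mem_filter, not_le] at ha
    obtain ⟨b1, b2, b3, b4⟩ := hA a ha.1
    have ha0 : (a : ℝ) < 0 := by exact_mod_cast ha.2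
    have e1 : √L ≤ -(a : ℝ) := Real.sqrt_le_iff.mpr ⟨by linarith, by rw [neg_sq]; exact b3⟩
    have e2 : -(a : ℝ) ≤ √U := Real.le_sqrt_of_sq_le (by rw [neg_sq]; exact b4)
    exact ⟨b1, b2, by linarith, by linarith⟩)
  have h3 : (A.card : ℝ) = ((A.filter (fun a => 0 ≤ a)).card : ℝ) +
      ((A.filter (fun a => ¬ 0 ≤ a)).card : ℝ) := by
    rw [← Nat.cast_add, Finset.card_filter_add_card_filter_not]
  linarith

theorem sqrt_sub_le {L U : ℝ} (hLU : L ≤ U) : √U - √L ≤ √(U - L) := by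
  have h0 : (0 : ℝ) ≤ √L := Real.sqrt_nonneg _
  have h1 : (0 : ℝ) ≤ √(U - L) := Real.sqrt_nonneg _
  have h2 : L ≤ √L ^ 2 := by
    rcases le_or_gt 0 L with h | h
    · rw [Real.sq_sqrt h]
    · nlinarith
  have h3 : √(U - L) ^ 2 = U - L := Real.sq_sqrt (by linarith)
  have h4 : √U ≤ √L + √(U - L) := by
    rw [Real.sqrt_le_iff]
    refine ⟨by linarith, ?_⟩
    nlinarith [mul_nonneg h0 h1]
  linarith

theorem sqrt_sub_le' {L U : ℝ} (hLU : L ≤ U) (hU : 0 < U) : √U - √L ≤ (U - L) / √U := by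
  have hU' : 0 < √U := Real.sqrt_pos.mpr hU
  rw [le_div_iff₀ hU']
  have h1 : √U * √U = U := Real.mul_self_sqrt hU.le
  have h2 : L ≤ √L * √U := by
    rcases le_or_gt 0 L with h | h
    · have h3 : √L * √L = L := Real.mul_self_sqrt h
      have h4 : √L ≤ √U := Real.sqrt_le_sqrt hLU
      nlinarith [Real.sqrt_nonneg L]
    · have : 0 ≤ √L * √U := by positivity
      linarith
  nlinarith

/-- the width of the windows for the trace -/
theorem width {X H k M U L : ℝ} (hX : 0 < X) (hH : 0 ≤ H) (hHX : H ≤ X) (hk : 0 ≤ k) (hM : 0 < M)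
    (hUL : U - L = H * k ^ 2) (hcase : M ≤ U ∨ M ≤ X * k ^ 2) :
    √U - √L ≤ √(H * X) / √M * k ^ 2 := by
  have hM' : 0 < √M := Real.sqrt_pos.mpr hM
  have hHs : √H * √H = H := Real.mul_self_sqrt hH
  have hsHX : √H ≤ √X := Real.sqrt_le_sqrt hHX
  have hle : L ≤ U := by nlinarith [sq_nonneg k]
  rw [Real.sqrt_mul hH]
  rcases hcase with h | h
  · have hU : 0 < U := by linarith
    have h1 := sqrt_sub_le' hle hU
    have h2 : √M ≤ √U := Real.sqrt_le_sqrt h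
    calc √U - √L ≤ (U - L) / √U := h1
      _ = H * k ^ 2 / √U := by rw [hUL]
      _ ≤ H * k ^ 2 / √M := by gcongr
      _ = √H * √H / √M * k ^ 2 := by rw [hHs]; ring
      _ ≤ _ := by gcongr
  · have h1 := sqrt_sub_le hle
    rw [hUL, Real.sqrt_mul hH, Real.sqrt_sq hk] at h1
    have h2 : √M ≤ √X * k := by
      have := Real.sqrt_le_sqrt h
      rwa [Real.sqrt_mul hX.le, Real.sqrt_sq hk] at this
    have h3 : 1 ≤ √X * k / √M := by rw [le_div_iff₀ hM']; linarith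
    calc √U - √L ≤ √H * k := h1
      _ = √H * k * 1 := by ring
      _ ≤ √H * k * (√X * k / √M) := by gcongr
      _ = _ := by ring

/-- the number of traces for given `k` and given norm -/
theorem trace_count {k : ℕ} (hk : 1 ≤ k) {M : ℕ} (hM : 1 ≤ M) {σ : ℤ} (hσ : σ = 1 ∨ σ = -1)
    {X H : ℝ} (hX : 0 < X) (hH : 0 ≤ H) (hHX : H ≤ X) (A : Finset ℤ)
    (hA : ∀ a ∈ A, (k : ℤ) ^ 2 ∣ a ^ 2 - 4 * σ * M ∧ Int.gcd a k ∣ 2 ∧
      X * (k : ℝ) ^ 2 ≤ |((a ^ 2 - 4 * σ * M : ℤ) : ℝ)| ∧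
      |((a ^ 2 - 4 * σ * M : ℤ) : ℝ)| ≤ (X + H) * (k : ℝ) ^ 2) :
    (A.card : ℝ) ≤ 16 * (k ^ 2).divisors.card * (√(H * X) / √M + 1) := by
  classical
  have hkr : (1 : ℝ) ≤ k := by exact_mod_cast hk
  have hk2 : (0 : ℝ) < (k : ℝ) ^ 2 := by positivity
  have hMr : (1 : ℝ) ≤ M := by exact_mod_cast hM
  have hd : (0 : ℝ) ≤ ((k ^ 2).divisors.card : ℝ) := by positivity
  have hbd : (0 : ℝ) ≤ √(H * X) / √M + 1 := by positivity
  have hHk : 0 ≤ H * (k : ℝ) ^ 2 := by positivity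
  -- a general half
  have half : ∀ (B : Finset ℤ) (L U : ℝ), U - L = H * (k : ℝ) ^ 2 →
      (∀ a ∈ B, (k : ℤ) ^ 2 ∣ a ^ 2 - 4 * σ * M ∧ Int.gcd a k ∣ 2 ∧ L ≤ (a : ℝ) ^ 2 ∧
        (a : ℝ) ^ 2 ≤ U) → (0 ≤ U → (M : ℝ) ≤ U ∨ (M : ℝ) ≤ X * (k : ℝ) ^ 2) →
      (B.card : ℝ) ≤ 8 * (k ^ 2).divisors.card * (√(H * X) / √M + 1) := by
    intro B L U hUL hB hcase
    rcases B.eq_empty_or_nonempty with rfl | ⟨b, hb⟩
    · simp only [card_empty, Nat.cast_zero]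
      positivity
    · have hU0 : 0 ≤ U := (sq_nonneg _).trans (hB b hb).2.2.2
      have h1 := width hX hH hHX (by positivity) (by linarith) hUL (hcase hU0)
      have h2 := sq_window_card hk (4 * σ * M) (L := L) (U := U) (by linarith) B hB
      have h3 : (√U - √L) / (k : ℝ) ^ 2 ≤ √(H * X) / √M := by
        rw [div_le_iff₀ hk2]; exact h1
      calc (B.card : ℝ) ≤ 2 * (((√U - √L) / (k : ℝ) ^ 2 + 1) * (4 * (k ^ 2).divisors.card)) := h2
        _ ≤ 2 * ((√(H * X) / √M + 1) * (4 * (k ^ 2).divisors.card)) := by gcongr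
        _ = _ := by ring
  have hs : (A.card : ℝ) = ((A.filter (fun a => 0 ≤ a ^ 2 - 4 * σ * M)).card : ℝ) +
      ((A.filter (fun a => ¬ 0 ≤ a ^ 2 - 4 * σ * M)).card : ℝ) := by
    rw [← Nat.cast_add, Finset.card_filter_add_card_filter_not]
  have hp := half (A.filter (fun a => 0 ≤ a ^ 2 - 4 * σ * M)) (4 * σ * M + X * (k : ℝ) ^ 2)
    (4 * σ * M + (X + H) * (k : ℝ) ^ 2) (by ring) (by
      intro a ha
      rw [mem_filter] at ha
      obtain ⟨b1, b2, b3, b4⟩ := hA a ha.1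
      have e0 : (0 : ℝ) ≤ ((a ^ 2 - 4 * σ * M : ℤ) : ℝ) := by exact_mod_cast ha.2
      rw [abs_of_nonneg e0] at b3 b4
      push_cast at b3 b4
      exact ⟨b1, b2, by linarith, by linarith⟩) (by
      intro hU
      rcases hσ with rfl | rfl
      · left
        push_cast
        nlinarith
      · right
        push_cast at hU
        nlinarith)
  have hq := half (A.filter (fun a => ¬ 0 ≤ a ^ 2 - 4 * σ * M)) (4 * σ * M - (X + H) * (k : ℝ) ^ 2)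
    (4 * σ * M - X * (k : ℝ) ^ 2) (by ring) (by
      intro a ha
      rw [mem_filter, not_le] at ha
      obtain ⟨b1, b2, b3, b4⟩ := hA a ha.1
      have e0 : ((a ^ 2 - 4 * σ * M : ℤ) : ℝ) < 0 := by exact_mod_cast ha.2
      rw [abs_of_neg e0] at b3 b4
      push_cast at b3 b4
      exact ⟨b1, b2, by linarith, by linarith⟩) (by
      intro hU
      rcases hσ with rfl | rfl
      · push_cast at hU ⊢
        by_cases h : (M : ℝ) ≤ X * (k : ℝ) ^ 2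
        · right; exact h
        · left; linarith
      · exfalso
        push_cast at hU
        nlinarith)
  linarith

end Pool.Agent.Y159.QS
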