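import Pool.Agent.Y159.PT.Crit
import Pool.Agent.TH869.EVF.Gen
import Pool.Agent.Y159.QS.Roots

set_option autoImplicit false

/-! Quadratic fields: discriminant, trace and norm. -/

namespace Pool.Agent.Y159.QS

open Polynomial NumberField Finset Pool.Agent.TH847.LG Pool.Agent.Y159.PT
open scoped nonZeroDivisors

variable {K : Type} [Field K] [NumberField K]

/-- the two embeddings -/
theorem two_emb (hK : Module.finrank ℚ K = 2) : ∃ σ τ : K →ₐ[ℚ] ℂ,
    (∀ x : K, ((Algebra.trace ℚ K x : ℚ) : ℂ) = σ x + τ x) ∧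
    (∀ x : K, ((Algebra.norm ℚ x : ℚ) : ℂ) = σ x * τ x) := by
  classical
  have hcard : Fintype.card (K →ₐ[ℚ] ℂ) = 2 := by rw [AlgHom.card, hK]
  obtain ⟨σ, τ, hστ, huniv⟩ := Finset.card_eq_two.mp hcard
  refine ⟨σ, τ, ?_, ?_⟩
  · intro x
    have h := trace_eq_sum_embeddings (K := ℚ) (L := K) ℂ (x := x)
    rw [huniv, Finset.sum_pair hστ] at h
    rw [← h]; simp
  · intro x
    have h := Algebra.norm_eq_prod_embeddings ℚ ℂ x
    rw [huniv, Finset.prod_pair hστ] at h
    rw [← h]; simp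

theorem quad_eq (hK : Module.finrank ℚ K = 2) (x : K) :
    x ^ 2 - (algebraMap ℚ K (Algebra.trace ℚ K x)) * x + algebraMap ℚ K (Algebra.norm ℚ x) = 0 := by
  obtain ⟨σ, τ, h1, h2⟩ := two_emb hK
  apply (σ : K →+* ℂ).injective
  simp only [map_add, map_sub, map_mul, map_pow, map_zero, RingHom.coe_coe, AlgHom.commutes]
  have e1 : (algebraMap ℚ ℂ) (Algebra.trace ℚ K x) = ((Algebra.trace ℚ K x : ℚ) : ℂ) := rfl
  have e2 : (algebraMap ℚ ℂ) (Algebra.norm ℚ x) = ((Algebra.norm ℚ x : ℚ) : ℂ) := rfl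
  rw [e1, e2, h1, h2]
  ring

theorem trace_sq (hK : Module.finrank ℚ K = 2) (x : K) :
    Algebra.trace ℚ K (x * x) = (Algebra.trace ℚ K x) ^ 2 - 2 * Algebra.norm ℚ x := by
  obtain ⟨σ, τ, h1, h2⟩ := two_emb hK
  have h : ((Algebra.trace ℚ K (x * x) : ℚ) : ℂ) =
      (((Algebra.trace ℚ K x) ^ 2 - 2 * Algebra.norm ℚ x : ℚ) : ℂ) := by
    push_cast
    rw [h1, h1, h2, map_mul, map_mul]
    ring
  exact_mod_cast h

/-- the discriminant of `ℤ[z]` -/
theorem disc_rel (hK : Module.finrank ℚ K = 2) (z : 𝓞 K) : ∃ k : ℤ,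
    (Algebra.trace ℤ (𝓞 K) z) ^ 2 - 4 * Algebra.norm ℤ z = k ^ 2 * discr K := by
  have hc : Fintype.card (Module.Free.ChooseBasisIndex ℤ (𝓞 K)) = 2 := by
    rw [← Module.finrank_eq_card_basis (RingOfIntegers.basis K), RingOfIntegers.rank, hK]
  let e : Module.Free.ChooseBasisIndex ℤ (𝓞 K) ≃ Fin 2 := Fintype.equivFinOfCardEq hc
  let b : Module.Basis (Fin 2) ℚ K := (integralBasis K).reindex e
  let x : Fin 2 → 𝓞 K := ![1, z]
  let v : Fin 2 → K := fun j => (x j : K)
  let M : Matrix (Fin 2) (Fin 2) ℤ := fun i j => (RingOfIntegers.basis K).repr (x j) (e.symm i)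
  have hM : b.toMatrix v = M.map (Int.castRingHom ℚ) := by
    ext i j
    rw [Module.Basis.toMatrix_apply]
    change ((integralBasis K).reindex e).repr (x j : K) i = _
    rw [Module.Basis.repr_reindex_apply]
    exact integralBasis_repr_apply K (x j) (e.symm i)
  have h2 := Algebra.discr_of_matrix_vecMul (A := ℚ) (b : Fin 2 → K) (b.toMatrix v)
  rw [Module.Basis.toMatrix_map_vecMul] at h2
  have h3 : (M.map (Int.castRingHom ℚ)).det = (M.det : ℚ) := by
    have := (RingHom.map_det (Int.castRingHom ℚ) M)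
    rw [RingHom.mapMatrix_apply] at this
    rw [← this]
    rfl
  have h4 : Algebra.discr ℚ (b : Fin 2 → K) = (discr K : ℚ) := by
    rw [coe_discr]
    have := Algebra.discr_reindex ℚ (integralBasis K) e
    rw [← this]
    congr 1
    exact Module.Basis.coe_reindex _ _
  rw [hM, h3, h4] at h2
  have h5 : Algebra.discr ℚ v = (Algebra.trace ℚ K (z : K)) ^ 2 - 4 * Algebra.norm ℚ (z : K) := by
    rw [Algebra.discr_def, Matrix.det_fin_two]
    simp only [Algebra.traceMatrix_apply, Algebra.traceForm_apply]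
    have e0 : v 0 = 1 := rfl
    have e1 : v 1 = (z : K) := rfl
    rw [e0, e1, one_mul, one_mul, mul_one, trace_sq hK]
    have e2 : Algebra.trace ℚ K 1 = 2 := by
      have := Algebra.trace_algebraMap (S := K) (1 : ℚ)
      rw [map_one, hK] at this
      rw [this]; norm_num
    rw [e2]; ring
  refine ⟨M.det, ?_⟩
  have h6 : (((Algebra.trace ℤ (𝓞 K) z) ^ 2 - 4 * Algebra.norm ℤ z : ℤ) : ℚ) =
      ((M.det ^ 2 * discr K : ℤ) : ℚ) := by
    rw [Int.cast_mul, Int.cast_pow M.det, ← h2, h5, ← Algebra.coe_trace_int, ← Algebra.coe_norm_int]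
    push_cast
    rfl
  exact_mod_cast h6

/-- an element whose square is the discriminant -/
theorem exists_sqrt (hK : Module.finrank ℚ K = 2) : ∃ α : K,
    IntermediateField.adjoin ℚ {α} = ⊤ ∧ α ^ 2 = ((NumberField.discr K : ℤ) : K) := by
  obtain ⟨θ, hθ⟩ := Field.exists_primitive_element ℚ K
  have hal : IsAlgebraic ℤ θ :=
    (IsFractionRing.isAlgebraic_iff ℤ ℚ K).mpr (Algebra.IsAlgebraic.isAlgebraic θ)
  obtain ⟨m, hm0, hmi⟩ := hal.exists_integral_multiple
  have hmK : (m : K) ≠ 0 := by exact_mod_cast hm0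
  let z : 𝓞 K := ⟨m • θ, hmi⟩
  have hzθ : (z : K) = m * θ := by
    change m • θ = _
    rw [zsmul_eq_mul]
  have hz : IntermediateField.adjoin ℚ {(z : K)} = ⊤ := by
    rw [eq_top_iff, ← hθ, IntermediateField.adjoin_simple_le_iff]
    have h1 := IntermediateField.mem_adjoin_simple_self ℚ (z : K)
    have h2 : θ = (z : K) * ((m : K))⁻¹ := by rw [hzθ]; field_simp
    rw [h2]
    exact mul_mem h1 (inv_mem (intCast_mem _ m))
  obtain ⟨k, hk⟩ := disc_rel hK z
  set a := Algebra.trace ℤ (𝓞 K) z with ha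
  set N := Algebra.norm ℤ z with hN
  have hq := quad_eq hK (z : K)
  have hta : Algebra.trace ℚ K (z : K) = (a : ℚ) := by rw [ha, Algebra.coe_trace_int]
  have hna : Algebra.norm ℚ (z : K) = (N : ℚ) := by rw [hN, Algebra.coe_norm_int]
  rw [hta, hna, map_intCast, map_intCast] at hq
  have hsq : (2 * (z : K) - a) ^ 2 = (k : K) ^ 2 * ((NumberField.discr K : ℤ) : K) := by
    have e1 : (((a ^ 2 - 4 * N : ℤ)) : K) = ((k ^ 2 * discr K : ℤ) : K) := by rw [hk]
    push_cast at e1
    linear_combination 4 * hq + e1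
  have hk0 : (k : K) ≠ 0 := by
    intro h0
    rw [h0, zero_pow two_ne_zero, zero_mul] at hsq
    have h1 : (z : K) = algebraMap ℚ K ((a : ℚ) / 2) := by
      have h2 := pow_eq_zero_iff (two_ne_zero) |>.mp hsq
      rw [map_div₀, map_intCast, map_ofNat]
      linear_combination h2 / 2
    have h3 : IntermediateField.adjoin ℚ {(z : K)} = ⊥ := by
      rw [IntermediateField.adjoin_simple_eq_bot_iff, h1]
      exact IntermediateField.algebraMap_mem _ _
    rw [h3] at hz
    have h4 : Module.finrank ℚ K = 1 := by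
      rw [← IntermediateField.finrank_top' (F := ℚ) (E := K), ← hz, IntermediateField.finrank_bot]
    omega
  refine ⟨(2 * (z : K) - a) / k, ?_, ?_⟩
  · rw [eq_top_iff, ← hz, IntermediateField.adjoin_simple_le_iff]
    set α := (2 * (z : K) - a) / k with hα
    have h1 := IntermediateField.mem_adjoin_simple_self ℚ α
    have h2 : (z : K) = (α * k + a) * (2 : K)⁻¹ := by
      rw [hα, div_mul_cancel₀ _ hk0]; ring
    rw [h2]
    exact mul_mem (add_mem (mul_mem h1 (intCast_mem _ k)) (intCast_mem _ a))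
      (inv_mem (ofNat_mem _ 2))
  · rw [div_pow, hsq]
    field_simp

/-- primes for which the discriminant is a nonzero square -/
theorem norm_of_qr (hK : Module.finrank ℚ K = 2) {p : ℕ} (hp : p.Prime) (r : ZMod p)
    (hr : r ^ 2 = ((NumberField.discr K : ℤ) : ZMod p)) (hr2 : 2 * r ≠ 0) :
    ∃ P : Ideal (𝓞 K), Ideal.absNorm P = p := by
  obtain ⟨α, hα, hα2⟩ := exists_sqrt hK
  have hdeg : (X ^ 2 - C (NumberField.discr K : ℤ) : ℤ[X]).natDegree = 2 := natDegree_X_pow_sub_C
  refine Pool.Agent.TH869.EVF.norm_of_root (X ^ 2 - C (NumberField.discr K : ℤ))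
    (monic_X_pow_sub_C _ two_ne_zero) (by rw [hdeg, hK]) α hα ?_ p hp r ?_ ?_
  · rw [map_sub, map_pow, aeval_X, aeval_C, hα2]; simp
  · rw [eval₂_sub, eval₂_pow, eval₂_X, eval₂_C, hr]; simp
  · rw [derivative_sub, derivative_C, sub_zero, derivative_X_pow]
    simp only [eval₂_mul, eval₂_C, eval₂_pow, eval₂_X]
    simpa using hr2

end Pool.Agent.Y159.QS
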