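import Pool.Agent.Y159.QS.Main

set_option autoImplicit false

/-! Moments of the torsion of class groups of quadratic fields in short intervals. -/

namespace Pool.Agent.Y159.QS

open NumberField Finset Pool.Agent.TH869.EVF
open scoped Classical

theorem rpow_half_add {X e : ℝ} (hX : 1 ≤ X) (r : ℕ) :
    (X ^ (1 / 2 + e)) ^ r = √X ^ r * X ^ (r * e) := by
  have hX0 : 0 < X := by linarith
  rw [Real.rpow_add hX0, mul_pow, Real.sqrt_eq_rpow, ← Real.rpow_natCast (X ^ e) r,
    ← Real.rpow_mul hX0.le, mul_comm e]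

/-- facts about the length of the range of primes -/
theorem y_facts {l r : ℕ} (hl : 1 ≤ l) (hr : 1 ≤ r) {X H y : ℝ} (hH : 1 ≤ H) (hHX : H ≤ X)
    (hy0 : 0 < y) (hy : y ^ (l + r) = H * √X) (hy3 : y ^ (3 * r) ≤ H) :
    1 ≤ y ∧ y ≤ X ∧ X ^ (1 / (2 * ((l : ℝ) + r))) ≤ y ∧ √H ≤ H / y ^ r ∧
      y ^ l / √X = H / y ^ r ∧ y ^ (2 * r) ≤ H / y ^ r := by
  have hX : 1 ≤ X := hH.trans hHX
  have hX0 : 0 < X := by linarith
  have hsX : 1 ≤ √X := by rw [Real.one_le_sqrt]; exact hX
  have hsXX : √X ≤ X := by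
    rw [Real.sqrt_le_iff]
    exact ⟨hX0.le, by nlinarith⟩
  have hy1 : 1 ≤ y := by
    by_contra h
    push Not at h
    have h1 : y ^ (l + r) < 1 := pow_lt_one₀ hy0.le h (by omega)
    rw [hy] at h1
    nlinarith
  have hyr : 0 < y ^ r := by positivity
  have hyr1 : 1 ≤ y ^ r := one_le_pow₀ hy1
  refine ⟨hy1, ?_, ?_, ?_, ?_, ?_⟩
  · by_contra h
    push Not at h
    have h1 : y ^ 2 ≤ y ^ (l + r) := pow_le_pow_right₀ hy1 (by omega)
    rw [hy] at h1
    nlinarith
  · have h1 : (X ^ (1 / (2 * ((l : ℝ) + r)))) ^ (l + r) ≤ y ^ (l + r) := by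
      rw [hy, ← Real.rpow_natCast, ← Real.rpow_mul hX0.le]
      have e : 1 / (2 * ((l : ℝ) + r)) * ((l + r : ℕ) : ℝ) = 1 / 2 := by
        have : (l : ℝ) + r ≠ 0 := by
          have : (1 : ℝ) ≤ l := by exact_mod_cast hl
          positivity
        push_cast
        field_simp
      rw [e, ← Real.sqrt_eq_rpow]
      nlinarith
    exact (pow_le_pow_iff_left₀ (by positivity) hy0.le (by omega)).mp h1
  · rw [le_div_iff₀ hyr]
    have h1 : y ^ r ≤ √H := by
      apply Real.le_sqrt_of_sq_le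
      refine le_trans ?_ hy3
      rw [← pow_mul, mul_comm 3 r]
      exact pow_le_pow_right₀ hy1 (by omega)
    have h2 : √H * √H = H := Real.mul_self_sqrt (by linarith)
    have := Real.sqrt_nonneg H
    nlinarith
  · rw [div_eq_div_iff (by positivity) (by positivity), ← pow_add, hy]
  · rw [le_div_iff₀ hyr, ← pow_add]
    have e : 2 * r + r = 3 * r := by ring
    rw [e]; exact hy3

theorem short (l r : ℕ) (hl : 1 ≤ l) (hr : 1 ≤ r) (ε : ℝ) (hε : 0 < ε) : ∃ C : ℝ, 0 < C ∧
    ∀ X H y : ℝ, 1 ≤ H → H ≤ X → 0 < y → y ^ (l + r) = H * √X → y ^ (3 * r) ≤ H →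
    ∀ (S : Finset ℤ) (K : ℤ → Type) [∀ D, Field (K D)] [∀ D, NumberField (K D)],
    (∀ D ∈ S, (X ≤ |(D : ℝ)| ∧ |(D : ℝ)| ≤ X + H) ∧ Module.finrank ℚ (K D) = 2 ∧
      NumberField.discr (K D) = D) →
    ∑ D ∈ S, (Nat.card {c : ClassGroup (𝓞 (K D)) // c ^ l = 1} : ℝ) ^ r ≤
      C * X ^ ε * (√X ^ r * (H / y ^ r)) := by
  have hlr : (1 : ℝ) ≤ l := by exact_mod_cast hl
  have hrr : (1 : ℝ) ≤ r := by exact_mod_cast hr
  set κ : ℝ := 1 / (2 * ((l : ℝ) + r)) with hκ
  have hκ0 : 0 < κ := by rw [hκ]; positivity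
  set ε1 : ℝ := min (ε / (3 * r)) (1 / 2) with hε1
  have hε10 : 0 < ε1 := lt_min (by positivity) (by norm_num)
  have hε1h : ε1 ≤ 1 / 2 := min_le_right _ _
  have hε1r : r * ε1 ≤ ε / 3 := by
    have h1 : ε1 ≤ ε / (3 * r) := min_le_left _ _
    rw [le_div_iff₀ (by positivity)] at h1
    linarith
  set ε2 : ℝ := ε / (3 * l) with hε2
  have hε20 : 0 < ε2 := by positivity
  have hε2l : l * ε2 = ε / 3 := by rw [hε2]; field_simp
  obtain ⟨C0, hC00, hC0⟩ := single ε1 hε10
  obtain ⟨C3, hC30, hC3⟩ := sum_EC l ε2 hε20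
  obtain ⟨C4, Y0, hC40, hY01, hC4⟩ := supplyD r hr ε1 hε10 hε1h
  obtain ⟨X1, hX11, hX1⟩ := Pool.Agent.Y159.PT.large_N (1 / Y0) (32 * Real.log 2) 0 32 (κ / 2) κ
    (by positivity) (by positivity) hκ0
  have hCbig : 0 < (2048 * C0) ^ r * 2 ^ (r - 1) * (4 + 2 * C3 + 2 * C4) := by positivity
  have hCsm : 0 < 4 * (2 * C0) ^ r * X1 ^ r := by positivity
  refine ⟨(2048 * C0) ^ r * 2 ^ (r - 1) * (4 + 2 * C3 + 2 * C4) + 4 * (2 * C0) ^ r * X1 ^ r,
    by positivity, ?_⟩
  intro X H y hH hHX hy0 hy hy3 S K _ _ hS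
  obtain ⟨hy1, hyX, hXy, hsH, hyl, hy2⟩ := y_facts hl hr hH hHX hy0 hy hy3
  have hX : 1 ≤ X := hH.trans hHX
  have hX0 : 0 < X := by linarith
  have hH0 : 0 < H := by linarith
  have hyr : 0 < y ^ r := by positivity
  set V : ℝ := H / y ^ r with hV
  have hV0 : 0 < V := by positivity
  set F : ℝ := X ^ (ε / 3) with hF
  have hF1 : 1 ≤ F := Real.one_le_rpow hX (by positivity)
  have hFε : F ^ 2 ≤ X ^ ε := by
    rw [hF, ← Real.rpow_natCast, ← Real.rpow_mul hX0.le]
    apply Real.rpow_le_rpow_of_exponent_le hX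
    push_cast; linarith
  have hFF : F ≤ X ^ ε := le_trans (by nlinarith) hFε
  set B : ℝ := C0 * (2 * X ^ (1 / 2 + ε1)) with hB
  have hB0 : 0 < B := by positivity
  have hBr : (X ^ (1 / 2 + ε1)) ^ r ≤ √X ^ r * F := by
    rw [rpow_half_add hX]
    have : X ^ (r * ε1) ≤ F := Real.rpow_le_rpow_of_exponent_le hX hε1r
    gcongr
  have hDB : ∀ D ∈ S, C0 * |(D : ℝ)| ^ (1 / 2 + ε1) ≤ B := by
    intro D hD
    have h1 : |(D : ℝ)| ≤ 2 * X := by linarith [(hS D hD).1.2]
    have h2 : |(D : ℝ)| ^ (1 / 2 + ε1) ≤ 2 * X ^ (1 / 2 + ε1) := by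
      calc |(D : ℝ)| ^ (1 / 2 + ε1) ≤ (2 * X) ^ (1 / 2 + ε1) :=
            Real.rpow_le_rpow (abs_nonneg _) h1 (by positivity)
        _ = 2 ^ (1 / 2 + ε1) * X ^ (1 / 2 + ε1) := Real.mul_rpow (by norm_num) hX0.le
        _ ≤ 2 ^ (1 : ℝ) * X ^ (1 / 2 + ε1) := by
            gcongr
            · norm_num
            · linarith
        _ = _ := by rw [Real.rpow_one]
    rw [hB]
    gcongr
  set T : ℤ → ℝ := fun D => (Nat.card {c : ClassGroup (𝓞 (K D)) // c ^ l = 1} : ℝ) with hT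
  have hT0 : ∀ D, 0 ≤ T D := fun D => Nat.cast_nonneg _
  have hTB : ∀ D ∈ S, T D ≤ B := by
    intro D hD
    have h1 := (hC0 l hl (K D) (hS D hD).2.1 0 ∅ (by simp)).1
    rw [(hS D hD).2.2] at h1
    exact h1.trans (hDB D hD)
  have hScard : (S.card : ℝ) ≤ 4 * H := card_window hH S (fun D hD => (hS D hD).1)
  rcases lt_or_ge X X1 with hXX | hXX
  · -- small `X`
    have h1 : ∑ D ∈ S, T D ^ r ≤ 4 * H * B ^ r := by
      calc ∑ D ∈ S, T D ^ r ≤ ∑ D ∈ S, B ^ r :=
            Finset.sum_le_sum fun D hD => pow_le_pow_left₀ (hT0 D) (hTB D hD) r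
        _ = S.card * B ^ r := by rw [sum_const, nsmul_eq_mul]
        _ ≤ _ := by gcongr
    refine h1.trans ?_
    have hyX1 : y ^ r ≤ X1 ^ r := by
      gcongr; linarith
    have h2 : H = y ^ r * V := by rw [hV]; field_simp
    have h3 : B ^ r = (2 * C0) ^ r * (X ^ (1 / 2 + ε1)) ^ r := by
      rw [hB, ← mul_pow]; congr 1; ring
    calc 4 * H * B ^ r = 4 * (y ^ r * V) * ((2 * C0) ^ r * (X ^ (1 / 2 + ε1)) ^ r) := by
          rw [h3, ← h2]
      _ ≤ 4 * (X1 ^ r * V) * ((2 * C0) ^ r * (√X ^ r * F)) := by gcongr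
      _ = 4 * (2 * C0) ^ r * X1 ^ r * F * (√X ^ r * V) := by ring
      _ ≤ _ := by
          have hsr : 0 ≤ √X ^ r * V := by positivity
          apply mul_le_mul_of_nonneg_right _ hsr
          apply mul_le_mul _ hFF (by positivity) (by positivity)
          linarith
  · -- large `X`
    obtain ⟨e1, e2⟩ := hX1 X hXX
    have hYy : Y0 ≤ y := by
      have h1 : Y0 ≤ X ^ κ := by
        rw [Real.rpow_neg hX0.le, inv_eq_one_div] at e1
        exact (one_div_le_one_div (by positivity) (by linarith)).mp e1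
      exact h1.trans hXy
    obtain ⟨z, hzy, hz, hbad⟩ := hC4 y hYy
    set N0 : ℝ := ((Qz z).card : ℝ) with hN0
    have hN01 : 1 ≤ N0 := by
      refine le_trans ?_ hz
      exact Real.one_le_rpow hy1 (by linarith)
    have hN0p : 0 < N0 := by linarith
    have hz1 : 1 ≤ z := by
      rcases Nat.eq_zero_or_pos z with h | h
      · exfalso
        rw [hN0, h] at hN01
        have : (Qz 0).card = 0 := by decide
        rw [this] at hN01
        norm_num at hN01
      · exact h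
    have hlogN : 32 * (Real.log 2 + Real.log X) ≤ N0 := by
      have h1 : (1 / Y0) * X ^ (κ / 2) ≤ X ^ (κ / 2) := by
        have : 1 / Y0 ≤ 1 := by rw [div_le_one (by linarith)]; exact hY01
        have hp : 0 < X ^ (κ / 2) := Real.rpow_pos_of_pos hX0 _
        nlinarith
      have h2 : X ^ (κ / 2) ≤ y ^ (1 - ε1) := by
        calc X ^ (κ / 2) = (X ^ κ) ^ ((1 : ℝ) / 2) := by
              rw [← Real.rpow_mul hX0.le]; congr 1; ring
          _ ≤ y ^ ((1 : ℝ) / 2) := Real.rpow_le_rpow (by positivity) hXy (by norm_num)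
          _ ≤ y ^ (1 - ε1) := Real.rpow_le_rpow_of_exponent_le hy1 (by linarith)
      linarith
    set Z : ℝ := (150 * (z : ℝ)) ^ l with hZ
    set W : ℝ := (1024 * B) ^ r * 2 ^ (r - 1) with hW
    have hW0 : 0 < W := by positivity
    set bad : Finset ℤ := S.filter (fun D => (((Qz z).filter (fun p => QR p D)).card : ℝ) <
      (Qz z).card / 8) with hbadd
    have hpt : ∀ D ∈ S, T D ^ r ≤ W * ((1 / N0) ^ r + (EC l Z D (Qz z) : ℝ) / N0 ^ 2 +
        if D ∈ bad then 1 else 0) := by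
      intro D hD
      have hE0 : (0 : ℝ) ≤ (EC l Z D (Qz z) : ℝ) / N0 ^ 2 := by positivity
      by_cases hDb : D ∈ bad
      · rw [if_pos hDb]
        have h1 : T D ^ r ≤ B ^ r := pow_le_pow_left₀ (hT0 D) (hTB D hD) r
        have h2 : B ^ r ≤ W := by
          have h3 : (1 : ℝ) ≤ 1024 ^ r := one_le_pow₀ (by norm_num)
          have h4 : (1 : ℝ) ≤ 2 ^ (r - 1) := one_le_pow₀ (by norm_num)
          calc B ^ r = 1 * B ^ r * 1 := by ring
            _ ≤ 1024 ^ r * B ^ r * 2 ^ (r - 1) := by gcongr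
            _ = W := by rw [hW, mul_pow 1024 B r]
        have h5 : 0 ≤ (1 / N0) ^ r := by positivity
        nlinarith
      · rw [if_neg hDb, add_zero]
        have hgood : N0 / 8 ≤ (((Qz z).filter (fun p => QR p D)).card : ℝ) := by
          by_contra hcon
          push Not at hcon
          exact hDb (by rw [hbadd, mem_filter]; exact ⟨hD, hcon⟩)
        have hD1 : 1 ≤ |(D : ℝ)| := hX.trans (hS D hD).1.1
        have hDne : D ≠ 0 := by
          rintro rfl
          norm_num at hD1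
        set P : Finset ℕ := (Qz z).filter (fun p => QR p D ∧ ¬ p ∣ D.natAbs) with hP
        have hPQ : P ⊆ Qz z := filter_subset _ _
        have hPcard : N0 / 16 ≤ (P.card : ℝ) := by
          have h1 : (Qz z).filter (fun p => QR p D) ⊆ P ∪ D.natAbs.primeFactors := by
            intro p hp
            rw [mem_filter] at hp
            rw [mem_union]
            by_cases h : p ∣ D.natAbs
            · right
              exact Nat.mem_primeFactors.mpr ⟨(mem_Qz hp.1).1, h, Int.natAbs_ne_zero.mpr hDne⟩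
            · left; rw [hP, mem_filter]; exact ⟨hp.1, hp.2, h⟩
          have h2 := (card_le_card h1).trans (card_union_le _ _)
          have h3 := card_primeFactors_le D.natAbs (Int.natAbs_ne_zero.mpr hDne)
          have h4 : Real.log (D.natAbs : ℝ) ≤ Real.log 2 + Real.log X := by
            rw [← Real.log_mul (by norm_num) hX0.ne']
            apply Real.log_le_log
            · exact_mod_cast Nat.pos_of_ne_zero (Int.natAbs_ne_zero.mpr hDne)
            · rw [Nat.cast_natAbs, Int.cast_abs]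
              linarith [(hS D hD).1.2]
          have h5 : (((Qz z).filter (fun p => QR p D)).card : ℝ) ≤
              P.card + (D.natAbs.primeFactors.card : ℝ) := by exact_mod_cast h2
          linarith
        have hPle : (P.card : ℝ) ≤ N0 := by rw [hN0]; exact_mod_cast card_le_card hPQ
        have h6 := (hC0 l hl (K D) (hS D hD).2.1 z P (by
          intro p hp
          rw [hP, mem_filter] at hp
          obtain ⟨hpQ, hqr, hpD⟩ := hp
          obtain ⟨hpp, -, hpz⟩ := mem_Qz hpQ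
          rw [(hS D hD).2.2]
          exact ⟨hpp, by exact_mod_cast hpz, hpD, hqr⟩)).2
        rw [(hS D hD).2.2] at h6
        have hEmono : (EC l Z D P : ℝ) ≤ EC l Z D (Qz z) := by exact_mod_cast EC_mono hPQ
        have h7 : T D * (P.card : ℝ) ^ 2 ≤ B * (2 * P.card + 4 * (EC l Z D (Qz z) : ℝ)) := by
          refine h6.trans ?_
          apply mul_le_mul (hDB D hD) (by linarith) (by positivity) hB0.le
        refine good_bound r hr (hT0 D) hB0.le hN0p hPcard (by positivity) ?_ h7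
        rw [hN0]
        exact_mod_cast (EC_le (l := l) (Z := Z) (D := D) (P := Qz z))
    -- the three sums
    set G : ℝ := y ^ (-((1 - ε1) * r)) with hG
    have hGV : G ≤ F / y ^ r := by
      rw [le_div_iff₀ hyr, hG, ← Real.rpow_natCast y r, ← Real.rpow_add hy0]
      have e : -((1 - ε1) * r) + r = r * ε1 := by ring
      rw [e]
      calc y ^ (r * ε1) ≤ X ^ (r * ε1) := Real.rpow_le_rpow hy0.le hyX (by positivity)
        _ ≤ F := Real.rpow_le_rpow_of_exponent_le hX hε1r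
    have hHG : H * G ≤ V * F := by
      calc H * G ≤ H * (F / y ^ r) := by gcongr
        _ = V * F := by rw [hV]; ring
    have hs1 : (S.card : ℝ) * (1 / N0) ^ r ≤ 4 * (V * F) := by
      have h1 : (1 / N0) ^ r ≤ G := by
        have h2 : 1 / N0 ≤ y ^ (-(1 - ε1)) := by
          rw [Real.rpow_neg hy0.le, inv_eq_one_div]
          exact one_div_le_one_div_of_le (Real.rpow_pos_of_pos hy0 _) hz
        calc (1 / N0) ^ r ≤ (y ^ (-(1 - ε1))) ^ r := by gcongr
          _ = G := by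
              rw [hG, ← Real.rpow_natCast, ← Real.rpow_mul hy0.le]; congr 1; ring
      calc (S.card : ℝ) * (1 / N0) ^ r ≤ 4 * H * G := by gcongr
        _ = 4 * (H * G) := by ring
        _ ≤ _ := by gcongr
    have hs2 : ∑ D ∈ S, (EC l Z D (Qz z) : ℝ) / N0 ^ 2 ≤ 2 * C3 * (V * F) := by
      have h1 := hC3 X H hX hH hHX z hz1 S (fun D hD => (hS D hD).1)
      have h2 : ((z : ℝ) ^ l) ^ ε2 ≤ F := by
        calc ((z : ℝ) ^ l) ^ ε2 ≤ (X ^ l) ^ ε2 := by
              have : (z : ℝ) ≤ X := hzy.trans hyX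
              gcongr
          _ = F := by
              rw [← Real.rpow_natCast, ← Real.rpow_mul hX0.le, hε2l]
      have h3 : √H + (z : ℝ) ^ l / √X ≤ 2 * V := by
        have h4 : (z : ℝ) ^ l / √X ≤ y ^ l / √X := by gcongr
        rw [hyl] at h4
        linarith
      rw [← Finset.sum_div, div_le_iff₀ (by positivity)]
      refine h1.trans ?_
      calc C3 * ((Qz z).card : ℝ) ^ 2 * ((z : ℝ) ^ l) ^ ε2 * (√H + (z : ℝ) ^ l / √X)
          ≤ C3 * ((Qz z).card : ℝ) ^ 2 * F * (2 * V) := by gcongr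
        _ = 2 * C3 * (V * F) * N0 ^ 2 := by rw [hN0]; ring
    have hs3 : (bad.card : ℝ) ≤ 2 * C4 * (V * F) := by
      have h1 := hbad X H hX0.le hH S (fun D hD => (hS D hD).1)
      refine h1.trans ?_
      have h2 : y ^ (2 * r) ≤ V * F := hy2.trans (le_mul_of_one_le_right hV0.le hF1)
      calc C4 * (H * G + y ^ (2 * r)) ≤ C4 * (V * F + V * F) := by gcongr
        _ = _ := by ring
    have hfin : ∑ D ∈ S, T D ^ r ≤ W * ((4 + 2 * C3 + 2 * C4) * (V * F)) := by
      calc ∑ D ∈ S, T D ^ r ≤ ∑ D ∈ S, W * ((1 / N0) ^ r + (EC l Z D (Qz z) : ℝ) / N0 ^ 2 +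
            if D ∈ bad then 1 else 0) := Finset.sum_le_sum hpt
        _ = W * ((S.card : ℝ) * (1 / N0) ^ r + ∑ D ∈ S, (EC l Z D (Qz z) : ℝ) / N0 ^ 2 +
            bad.card) := by
            rw [← Finset.mul_sum, Finset.sum_add_distrib, Finset.sum_add_distrib, sum_const,
              nsmul_eq_mul]
            congr 2
            rw [← Finset.sum_filter, sum_const, nsmul_eq_mul, mul_one]
            congr 2
            ext D
            rw [mem_filter, hbadd, mem_filter]
            tauto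
        _ ≤ W * (4 * (V * F) + 2 * C3 * (V * F) + 2 * C4 * (V * F)) := by gcongr
        _ = _ := by ring
    have hWle : W ≤ (2048 * C0) ^ r * 2 ^ (r - 1) * (√X ^ r * F) := by
      have h1 : (1024 * B) ^ r = (2048 * C0) ^ r * (X ^ (1 / 2 + ε1)) ^ r := by
        rw [hB, ← mul_pow]; congr 1; ring
      rw [hW, h1]
      calc (2048 * C0) ^ r * (X ^ (1 / 2 + ε1)) ^ r * 2 ^ (r - 1)
          ≤ (2048 * C0) ^ r * (√X ^ r * F) * 2 ^ (r - 1) := by gcongr
        _ = _ := by ring
    refine hfin.trans ?_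
    have hK0 : 0 ≤ 4 + 2 * C3 + 2 * C4 := by positivity
    calc W * ((4 + 2 * C3 + 2 * C4) * (V * F))
        ≤ ((2048 * C0) ^ r * 2 ^ (r - 1) * (√X ^ r * F)) * ((4 + 2 * C3 + 2 * C4) * (V * F)) := by
          gcongr
      _ = (2048 * C0) ^ r * 2 ^ (r - 1) * (4 + 2 * C3 + 2 * C4) * F ^ 2 * (√X ^ r * V) := by ring
      _ ≤ _ := by
          have hsr : 0 ≤ √X ^ r * V := by positivity
          apply mul_le_mul_of_nonneg_right _ hsr
          apply mul_le_mul _ hFε (by positivity) (by positivity)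
          linarith

end Pool.Agent.Y159.QS
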