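import Pool.Agent.Y159.QS.Coll
import Pool.Agent.Y159.QS.Indep

set_option autoImplicit false

/-! The torsion of the class group of one quadratic field. -/

namespace Pool.Agent.Y159.QS

open NumberField Finset Pool.Agent.TH847.LG Pool.Agent.Y159.PT
open scoped nonZeroDivisors Classical

/-- the number of collisions -/
noncomputable def EC (l : ℕ) (Z : ℝ) (D : ℤ) (P : Finset ℕ) : ℕ :=
  ((P ×ˢ P).filter (fun x => x.2 ≠ x.1 ∧ Coll l Z D x.1 x.2)).card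

theorem EC_mono {l : ℕ} {Z : ℝ} {D : ℤ} {P P' : Finset ℕ} (h : P ⊆ P') :
    EC l Z D P ≤ EC l Z D P' :=
  card_le_card (filter_subset_filter _ (product_subset_product h h))

theorem EC_le {l : ℕ} {Z : ℝ} {D : ℤ} {P : Finset ℕ} : EC l Z D P ≤ P.card ^ 2 := by
  refine (card_filter_le _ _).trans ?_
  rw [card_product, sq]

theorem single (ε : ℝ) (hε : 0 < ε) : ∃ C : ℝ, 0 < C ∧ ∀ l : ℕ, 1 ≤ l →
    ∀ (K : Type) [Field K] [NumberField K], Module.finrank ℚ K = 2 → ∀ (z : ℕ) (P : Finset ℕ),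
    (∀ p ∈ P, p.Prime ∧ p ≤ z ∧ ¬ p ∣ (discr K).natAbs ∧
      ∃ r : ZMod p, r ^ 2 = ((discr K : ℤ) : ZMod p) ∧ 2 * r ≠ 0) →
    (Nat.card {c : ClassGroup (𝓞 K) // c ^ l = 1} : ℝ) ≤ C * |((discr K : ℤ) : ℝ)| ^ (1 / 2 + ε) ∧
    (Nat.card {c : ClassGroup (𝓞 K) // c ^ l = 1} : ℝ) * (P.card : ℝ) ^ 2 ≤
      C * |((discr K : ℤ) : ℝ)| ^ (1 / 2 + ε) *
        (2 * P.card + 4 * EC l ((150 * (z : ℝ)) ^ l) (discr K) P) := by
  obtain ⟨C, hC0, hC⟩ := tor_sep 2 le_rfl ε hε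
  refine ⟨C, hC0, ?_⟩
  intro l hl K _ _ hK z P hP
  have hD : (((discr K).natAbs : ℕ) : ℝ) = |((discr K : ℤ) : ℝ)| := by
    rw [Nat.cast_natAbs, Int.cast_abs]
  have h0 := hC l hl K hK ∅ (by simp) (by simp)
  rw [hD, card_empty, Nat.cast_zero, zero_add, mul_one] at h0
  refine ⟨h0, ?_⟩
  obtain ⟨G, hGP, hG, hcard⟩ := indep P (Coll l ((150 * (z : ℝ)) ^ l) (discr K))
    (fun p q h => h.symm)
  have h1 := hC l hl K hK G (by
    intro p hp
    obtain ⟨hpp, -, -, r, hr1, hr2⟩ := hP p (hGP hp)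
    exact ⟨hpp, norm_of_qr hK hpp r hr1 hr2⟩) (by
    intro p hp q hq hpq P' J Q R hP' hPJ hQ hQR w hw0 hw hwl
    obtain ⟨hpp, hpz, hpD, -⟩ := hP p (hGP hp)
    obtain ⟨hqp, hqz, hqD, -⟩ := hP q (hGP hq)
    refine hG p hp q hq hpq (coll_of_span hK hl hpp hqp hpq hP' hPJ hQ hQR hpD hqD hw ?_ ?_)
    · have hpz' : (p : ℝ) ≤ z := by exact_mod_cast hpz
      have hqz' : (q : ℝ) ≤ z := by exact_mod_cast hqz
      push_cast
      rw [← pow_mul, mul_comm l 2, pow_mul]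
      apply pow_le_pow_left₀ (by positivity)
      nlinarith [mul_le_mul hpz' hqz' (Nat.cast_nonneg q) (Nat.cast_nonneg z)]
    · intro v
      refine (hwl v).trans ?_
      have : ((max p q : ℕ) : ℝ) ≤ z := by exact_mod_cast max_le hpz hqz
      gcongr)
  rw [hD] at h1
  set T : ℝ := (Nat.card {c : ClassGroup (𝓞 K) // c ^ l = 1} : ℝ) with hT
  have hT0 : 0 ≤ T := by rw [hT]; positivity
  have hG0 : T * G.card ≤ C * |((discr K : ℤ) : ℝ)| ^ (1 / 2 + ε) := by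
    refine le_trans ?_ h1
    gcongr
    linarith
  calc T * (P.card : ℝ) ^ 2
      ≤ T * (G.card * (2 * P.card + 4 * EC l ((150 * (z : ℝ)) ^ l) (discr K) P)) := by
        gcongr
        exact hcard
    _ = T * G.card * (2 * P.card + 4 * EC l ((150 * (z : ℝ)) ^ l) (discr K) P) := by ring
    _ ≤ _ := by gcongr

end Pool.Agent.Y159.QS
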