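import Pool.Agent.Y159.PF.Supply

set_option autoImplicit false

/-! Most discriminants in a short interval are squares modulo many small primes. -/

namespace Pool.Agent.Y159.QS

open Polynomial Finset Pool.Agent.TH869.EVF Pool.Agent.Y159.PF
open scoped Classical

/-- `D` is a nonzero square modulo the odd prime `p` -/
def QR (p : ℕ) (D : ℤ) : Prop := ∃ r : ZMod p, r ^ 2 = (D : ZMod p) ∧ 2 * r ≠ 0

theorem qr_of_rt {s D : ℤ} {p : ℕ} (h : Rt (X ^ 2 - C s) p (((D - s : ℤ)) : ZMod p)) : QR p D := by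
  obtain ⟨r, h1, h2⟩ := h
  refine ⟨r, ?_, ?_⟩
  · rw [eval₂_sub, eval₂_pow, eval₂_X, eval₂_C] at h1
    push_cast at h1
    have : r ^ 2 - (s : ZMod p) = (D : ZMod p) - s := by simpa using h1
    linear_combination this
  · rw [derivative_sub, derivative_C, sub_zero, derivative_X_pow] at h2
    simpa using h2

theorem supplyD (m : ℕ) (hm : 1 ≤ m) (δ : ℝ) (hδ : 0 < δ) (hδ1 : δ ≤ 1 / 2) :
    ∃ C Y0 : ℝ, 0 < C ∧ 1 ≤ Y0 ∧ ∀ y : ℝ, Y0 ≤ y → ∃ z : ℕ, (z : ℝ) ≤ y ∧
    y ^ (1 - δ) ≤ (Qz z).card ∧ ∀ X H : ℝ, 0 ≤ X → 1 ≤ H → ∀ S : Finset ℤ,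
    (∀ D ∈ S, X ≤ |(D : ℝ)| ∧ |(D : ℝ)| ≤ X + H) →
    ((S.filter (fun D => (((Qz z).filter (fun p => QR p D)).card : ℝ) <
      (Qz z).card / 8)).card : ℝ) ≤ C * (H * y ^ (-((1 - δ) * m)) + y ^ (2 * m)) := by
  obtain ⟨C1, Y0, hC0, hY0, hmain⟩ := supply 2 m (by norm_num) hm δ hδ hδ1
  refine ⟨2 * C1 * 3, Y0, by positivity, hY0, ?_⟩
  intro y hy
  obtain ⟨z, hzy, hz, hsup⟩ := hmain y hy
  refine ⟨z, hzy, hz, ?_⟩
  intro X H hX hH S hS
  have hy0 : 0 < y := by linarith
  have hyp : 0 < y ^ (-((1 - δ) * m)) := Real.rpow_pos_of_pos hy0 _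
  have hyq : 0 < y ^ (2 * m) := by positivity
  set N : ℕ := ⌈H⌉₊ + 1 with hN
  have hNH : (N : ℝ) ≤ 3 * H := by
    rw [hN]; push_cast
    have := Nat.ceil_lt_add_one (a := H) (by linarith)
    linarith
  have hHN : H ≤ ⌈H⌉₊ := Nat.le_ceil H
  -- one half
  have half : ∀ (S' : Finset ℤ) (s : ℤ), (∀ D ∈ S', |D - s| ≤ (N : ℤ)) →
      ((S'.filter (fun D => (((Qz z).filter (fun p => QR p D)).card : ℝ) <
        (Qz z).card / 8)).card : ℝ) ≤ C1 * (3 * H * y ^ (-((1 - δ) * m)) + y ^ (2 * m)) := by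
    intro S' s hS'
    have h1 := hsup (Polynomial.X ^ 2 - Polynomial.C s) (monic_X_pow_sub_C _ two_ne_zero) natDegree_X_pow_sub_C N
      (by omega) (S'.image (fun D => D - s)) (by
        intro t ht
        rw [mem_image] at ht
        obtain ⟨D, hD, rfl⟩ := ht
        exact hS' D hD)
    have h2 : (S'.filter (fun D => (((Qz z).filter (fun p => QR p D)).card : ℝ) <
        (Qz z).card / 8)).card ≤
        ((S'.image (fun D => D - s)).filter (fun t => (((Qz z).filter
          (fun p => Rt (Polynomial.X ^ 2 - Polynomial.C s) p (t : ZMod p))).card : ℝ) <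
            (Qz z).card / (4 * (2 : ℕ)))).card := by
      refine card_le_card_of_injOn (fun D => D - s) ?_ ?_
      · intro D hD
        rw [mem_coe, mem_filter] at hD ⊢
        refine ⟨mem_image_of_mem _ hD.1, ?_⟩
        have h3 : ((Qz z).filter (fun p => Rt (Polynomial.X ^ 2 - Polynomial.C s) p
            (((D - s : ℤ)) : ZMod p))).card ≤ ((Qz z).filter (fun p => QR p D)).card := by
          apply card_le_card
          intro p hp
          rw [mem_filter] at hp ⊢
          exact ⟨hp.1, qr_of_rt hp.2⟩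
        have h4 : (((Qz z).filter (fun p => Rt (Polynomial.X ^ 2 - Polynomial.C s) p
            (((D - s : ℤ)) : ZMod p))).card : ℝ) ≤ ((Qz z).filter (fun p => QR p D)).card := by
          exact_mod_cast h3
        refine lt_of_le_of_lt h4 (hD.2.trans_eq ?_)
        norm_num
      · intro a _ b _ hab
        have : a - s = b - s := hab
        linarith
    have h5 : (S'.filter (fun D => (((Qz z).filter (fun p => QR p D)).card : ℝ) <
        (Qz z).card / 8)).card ≤ C1 * (N * y ^ (-((1 - δ) * m)) + y ^ (2 * m)) := by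
      refine le_trans ?_ h1
      exact_mod_cast h2
    refine h5.trans ?_
    gcongr
  have hXf := Nat.floor_le hX
  have hXf' := Nat.lt_floor_add_one X
  have hp := half (S.filter (fun D => 0 ≤ D)) (⌊X⌋₊ : ℤ) (by
    intro D hD
    rw [mem_filter] at hD
    obtain ⟨h1, h2⟩ := hS D hD.1
    have hD0 : (0 : ℝ) ≤ D := by exact_mod_cast hD.2
    rw [abs_of_nonneg hD0] at h1 h2
    rw [abs_le]
    constructor
    · have : (-(N : ℤ) : ℝ) ≤ ((D - (⌊X⌋₊ : ℤ) : ℤ) : ℝ) := by
        push_cast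
        have : (0 : ℝ) ≤ N := by positivity
        linarith
      exact_mod_cast this
    · have : ((D - (⌊X⌋₊ : ℤ) : ℤ) : ℝ) ≤ (N : ℤ) := by
        rw [hN]
        push_cast
        linarith
      exact_mod_cast this)
  have hq := half (S.filter (fun D => ¬ 0 ≤ D)) (-(⌊X⌋₊ : ℤ)) (by
    intro D hD
    rw [mem_filter, not_le] at hD
    obtain ⟨h1, h2⟩ := hS D hD.1
    have hD0 : (D : ℝ) < 0 := by exact_mod_cast hD.2
    rw [abs_of_neg hD0] at h1 h2
    rw [abs_le]
    constructor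
    · have : (-(N : ℤ) : ℝ) ≤ ((D - (-(⌊X⌋₊ : ℤ)) : ℤ) : ℝ) := by
        rw [hN]
        push_cast
        linarith
      exact_mod_cast this
    · have : ((D - (-(⌊X⌋₊ : ℤ)) : ℤ) : ℝ) ≤ (N : ℤ) := by
        push_cast
        have : (0 : ℝ) ≤ N := by positivity
        linarith
      exact_mod_cast this)
  have hsum : ((S.filter (fun D => (((Qz z).filter (fun p => QR p D)).card : ℝ) <
      (Qz z).card / 8)).card : ℝ) ≤
      (((S.filter (fun D => 0 ≤ D)).filter (fun D => (((Qz z).filter (fun p => QR p D)).card : ℝ) <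
        (Qz z).card / 8)).card : ℝ) +
      (((S.filter (fun D => ¬ 0 ≤ D)).filter (fun D => (((Qz z).filter (fun p => QR p D)).card : ℝ) <
        (Qz z).card / 8)).card : ℝ) := by
    have : S.filter (fun D => (((Qz z).filter (fun p => QR p D)).card : ℝ) < (Qz z).card / 8) ⊆
        ((S.filter (fun D => 0 ≤ D)).filter (fun D => (((Qz z).filter (fun p => QR p D)).card : ℝ) <
        (Qz z).card / 8)) ∪ ((S.filter (fun D => ¬ 0 ≤ D)).filter
          (fun D => (((Qz z).filter (fun p => QR p D)).card : ℝ) < (Qz z).card / 8)) := by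
      intro D hD
      rw [mem_filter] at hD
      rw [mem_union, mem_filter, mem_filter, mem_filter, mem_filter]
      by_cases h : 0 ≤ D
      · left; exact ⟨⟨hD.1, h⟩, hD.2⟩
      · right; exact ⟨⟨hD.1, h⟩, hD.2⟩
    exact_mod_cast (card_le_card this).trans (card_union_le _ _)
  calc _ ≤ _ := hsum
    _ ≤ C1 * (3 * H * y ^ (-((1 - δ) * m)) + y ^ (2 * m)) +
        C1 * (3 * H * y ^ (-((1 - δ) * m)) + y ^ (2 * m)) := add_le_add hp hq
    _ ≤ 2 * C1 * 3 * (H * y ^ (-((1 - δ) * m)) + y ^ (2 * m)) := by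
        nlinarith [mul_pos hC0 hyq]

end Pool.Agent.Y159.QS
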